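import Pool.Agent.R50.MC.Round

set_option autoImplicit false

/-!
# The adjacency form against a weighted norm
-/

namespace Pool.Agent.J4.H30.LC

open Finset Pool.Agent.Y394.AT Pool.Agent.R50.MC

variable {V : Type} [Fintype V] {G : SimpleGraph V}

/-- the weighted norm -/
noncomputable def ND (D : V → ℝ) (f : V → ℝ) : ℝ := ∑ v, D v * f v ^ 2

theorem ND_nonneg {D : V → ℝ} (hD : ∀ v, 0 ≤ D v) (f : V → ℝ) : 0 ≤ ND D f :=
  Finset.sum_nonneg fun v _ => mul_nonneg (hD v) (sq_nonneg _)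

theorem ND_add (D : V → ℝ) (f g : V → ℝ) (t : ℝ) :
    ND D (fun v => f v + t * g v) = ND D f + 2 * t * ∑ v, D v * (f v * g v) + t ^ 2 * ND D g := by
  unfold ND
  rw [Finset.mul_sum, Finset.mul_sum, ← Finset.sum_add_distrib, ← Finset.sum_add_distrib]
  apply Finset.sum_congr rfl
  intro v _
  ring

/-- a quadratic polynomial without sign change -/
theorem disc {A B C : ℝ} (h : ∀ t : ℝ, 0 ≤ A + 2 * t * B + t ^ 2 * C) : B ^ 2 ≤ A * C := by
  have h1 := discrim_le_zero (a := C) (b := 2 * B) (c := A) (fun x => by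
    have := h x
    nlinarith)
  unfold discrim at h1
  nlinarith

/-- Cauchy–Schwarz for the positive semidefinite form -/
theorem cs_form {D : V → ℝ} {e : ℝ} (hq : ∀ f : V → ℝ, -e * ND D f ≤ q G f) (f g : V → ℝ) :
    (bb G f g + e * ∑ v, D v * (f v * g v)) ^ 2 ≤
      (q G f + e * ND D f) * (q G g + e * ND D g) := by
  apply disc
  intro t
  have h1 := hq (fun v => f v + t * g v)
  rw [q_add, ND_add] at h1
  nlinarith

open Classical in
theorem sum_adj_left (F : V → ℝ) : ∑ v, ∑ w, (if G.Adj v w then F v else 0) =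
    ∑ v, ((nb G v).card : ℝ) * F v := by
  apply Finset.sum_congr rfl
  intro v _
  rw [← Finset.sum_filter, Finset.sum_const, nsmul_eq_mul]
  congr 2

open Classical in
theorem sum_adj_right (F : V → ℝ) : ∑ v, ∑ w, (if G.Adj v w then F w else 0) =
    ∑ v, ((nb G v).card : ℝ) * F v := by
  rw [Finset.sum_comm, ← sum_adj_left]
  apply Finset.sum_congr rfl
  intro v _
  apply Finset.sum_congr rfl
  intro w _
  by_cases h : G.Adj v w
  · rw [if_pos h, if_pos h.symm]
  · rw [if_neg h, if_neg (fun h' => h h'.symm)]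

theorem deg_le_ND {D : V → ℝ} (hdeg : ∀ v, ((nb G v).card : ℝ) ≤ D v) (f : V → ℝ) :
    ∑ v, ((nb G v).card : ℝ) * f v ^ 2 ≤ ND D f :=
  Finset.sum_le_sum fun v _ => mul_le_mul_of_nonneg_right (hdeg v) (sq_nonneg _)

/-- the trivial bound for the bilinear form -/
theorem cs_triv {D : V → ℝ} (hdeg : ∀ v, ((nb G v).card : ℝ) ≤ D v) (f g : V → ℝ) :
    (bb G f g) ^ 2 ≤ ND D f * ND D g := by
  classical
  have hD : ∀ v, 0 ≤ D v := fun v => (Nat.cast_nonneg _).trans (hdeg v)
  have h1 : (bb G f g) ^ 2 ≤ (∑ v, ((nb G v).card : ℝ) * f v ^ 2) *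
      (∑ v, ((nb G v).card : ℝ) * g v ^ 2) := by
    apply disc
    intro t
    have h2 : ∑ v, ((nb G v).card : ℝ) * f v ^ 2 + 2 * t * bb G f g +
        t ^ 2 * ∑ v, ((nb G v).card : ℝ) * g v ^ 2 =
        ∑ v, ∑ w, if G.Adj v w then (f v + t * g w) ^ 2 else 0 := by
      rw [← sum_adj_left (fun v => f v ^ 2), ← sum_adj_right (fun v => g v ^ 2)]
      unfold bb
      rw [Finset.mul_sum, Finset.mul_sum, ← Finset.sum_add_distrib, ← Finset.sum_add_distrib]
      apply Finset.sum_congr rfl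
      intro v _
      rw [Finset.mul_sum, Finset.mul_sum, ← Finset.sum_add_distrib, ← Finset.sum_add_distrib]
      apply Finset.sum_congr rfl
      intro w _
      split_ifs
      · ring
      · ring
    rw [h2]
    apply Finset.sum_nonneg
    intro v _
    apply Finset.sum_nonneg
    intro w _
    split_ifs
    · positivity
    · exact le_refl _
  refine h1.trans ?_
  apply mul_le_mul (deg_le_ND hdeg f) (deg_le_ND hdeg g) _ (ND_nonneg hD f)
  exact Finset.sum_nonneg fun v _ => by positivity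

theorem q_le_ND {D : V → ℝ} (hdeg : ∀ v, ((nb G v).card : ℝ) ≤ D v) (f : V → ℝ) :
    q G f ≤ ND D f := by
  have hD : ∀ v, 0 ≤ D v := fun v => (Nat.cast_nonneg _).trans (hdeg v)
  have h1 := cs_triv hdeg f f
  have h2 : |bb G f f| ≤ |ND D f| := by
    apply sq_le_sq.1
    nlinarith
  rw [abs_of_nonneg (ND_nonneg hD f)] at h2
  exact (le_abs_self _).trans h2

/-! ### Degenerate sets -/

open Classical in
/-- the sum of a function over the edges inside `W` -/
noncomputable def eF (G : SimpleGraph V) (F : V → V → ℝ) (W : Finset V) : ℝ :=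
  ∑ v ∈ W, ∑ w ∈ W, if G.Adj v w then F v w else 0

open Classical in
theorem eF_erase (F : V → V → ℝ) (hF : ∀ v w, F v w = F w v) (W : Finset V) {z : V} (hz : z ∈ W) :
    eF G F W = eF G F (W.erase z) + 2 * ∑ w ∈ nb G z ∩ W, F z w := by
  unfold eF
  have h1 : ∀ v, ∑ w ∈ W, (if G.Adj v w then F v w else 0) =
      ∑ w ∈ W.erase z, (if G.Adj v w then F v w else 0) + (if G.Adj v z then F v z else 0) :=
    fun v => (Finset.sum_erase_add W _ hz).symm
  rw [← Finset.sum_erase_add W _ hz]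
  rw [Finset.sum_congr rfl (fun v _ => h1 v), Finset.sum_add_distrib]
  have h2 : ∑ w ∈ nb G z ∩ W, F z w = ∑ w ∈ W, if G.Adj z w then F z w else 0 := by
    rw [← Finset.sum_filter]
    apply Finset.sum_congr _ (fun _ _ => rfl)
    ext w
    simp only [Finset.mem_inter, Finset.mem_filter, mem_nb]
    tauto
  have h3 : ∑ v ∈ W.erase z, (if G.Adj v z then F v z else 0) =
      ∑ w ∈ W, if G.Adj z w then F z w else 0 := by
    rw [← Finset.sum_erase_add W _ hz, if_neg (G.irrefl), add_zero]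
    apply Finset.sum_congr rfl
    intro v _
    by_cases h : G.Adj v z
    · rw [if_pos h, if_pos h.symm, hF]
    · rw [if_neg h, if_neg (fun h' => h h'.symm)]
  rw [h2, h3]
  ring

open Classical in
theorem degen {D : V → ℝ} {η t : ℝ} (ht : 0 < t) (f : V → ℝ) (n : ℕ) :
    ∀ W : Finset V, W.card = n →
      (∀ W' ⊆ W, ∑ v ∈ W', ((nb G v ∩ W').card : ℝ) ≤ η * ∑ v ∈ W', D v) →
      eF G (fun v w => f v * f w - (f v ^ 2 + f w ^ 2) / (2 * t)) W ≤
        t * η * ∑ v ∈ W, D v * f v ^ 2 := by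
  induction n with
  | zero =>
    intro W hW _
    rw [Finset.card_eq_zero] at hW
    subst hW
    simp [eF]
  | succ n ih =>
    intro W hW hsub
    have hne : W.Nonempty := by
      rw [← Finset.card_pos]
      omega
    obtain ⟨z, hz, hz2⟩ : ∃ z ∈ W, ((nb G z ∩ W).card : ℝ) ≤ η * D z := by
      by_contra hcon
      push Not at hcon
      have h1 := hsub W (Finset.Subset.refl _)
      rw [Finset.mul_sum] at h1
      exact absurd h1 (not_le.2 (Finset.sum_lt_sum_of_nonempty hne hcon))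
    have h2 := ih (W.erase z) (by rw [Finset.card_erase_of_mem hz, hW]; rfl)
      (fun W' hW' => hsub W' (hW'.trans (Finset.erase_subset _ _)))
    rw [eF_erase _ (fun v w => by ring) W hz, ← Finset.sum_erase_add W _ hz]
    have h3 : 2 * ∑ w ∈ nb G z ∩ W, (f z * f w - (f z ^ 2 + f w ^ 2) / (2 * t)) ≤
        t * η * (D z * f z ^ 2) := by
      rw [Finset.mul_sum]
      calc ∑ w ∈ nb G z ∩ W, 2 * (f z * f w - (f z ^ 2 + f w ^ 2) / (2 * t)) ≤
            ∑ w ∈ nb G z ∩ W, t * f z ^ 2 := by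
            apply Finset.sum_le_sum
            intro w _
            have e1 : 2 * (f z * f w - (f z ^ 2 + f w ^ 2) / (2 * t)) =
                t * f z ^ 2 - ((t * f z - f w) ^ 2 + f z ^ 2) / t := by
              field_simp
              ring
            rw [e1]
            have : 0 ≤ ((t * f z - f w) ^ 2 + f z ^ 2) / t := by positivity
            linarith
        _ = ((nb G z ∩ W).card : ℝ) * (t * f z ^ 2) := by
            rw [Finset.sum_const, nsmul_eq_mul]
        _ ≤ η * D z * (t * f z ^ 2) := mul_le_mul_of_nonneg_right hz2 (by positivity)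
        _ = t * η * (D z * f z ^ 2) := by ring
    rw [mul_add]
    exact add_le_add h2 h3

open Classical in
/-- **The form is small on degenerate sets.** -/
theorem q_degen {D : V → ℝ} (hdeg : ∀ v, ((nb G v).card : ℝ) ≤ D v) {η t : ℝ} (ht : 0 < t)
    (W : Finset V)
    (hW : ∀ W' ⊆ W, ∑ v ∈ W', ((nb G v ∩ W').card : ℝ) ≤ η * ∑ v ∈ W', D v)
    (f : V → ℝ) (hf : ∀ v, v ∉ W → f v = 0) : q G f ≤ (t * η + 1 / t) * ND D f := by
  have hD : ∀ v, 0 ≤ D v := fun v => (Nat.cast_nonneg _).trans (hdeg v)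
  have h1 := degen (G := G) (D := D) (η := η) ht f W.card W rfl hW
  have h2 : ∑ v ∈ W, D v * f v ^ 2 = ND D f := by
    unfold ND
    apply Finset.sum_subset (Finset.subset_univ _)
    intro v _ hv
    rw [hf v hv]
    ring
  rw [h2] at h1
  have h3 : q G f = eF G (fun v w => f v * f w - (f v ^ 2 + f w ^ 2) / (2 * t)) Finset.univ +
      (1 / t) * ∑ v, ((nb G v).card : ℝ) * f v ^ 2 := by
    have h4 : (1 / t) * ∑ v, ((nb G v).card : ℝ) * f v ^ 2 =
        ∑ v, ∑ w, if G.Adj v w then f v ^ 2 / (2 * t) + f w ^ 2 / (2 * t) else 0 := by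
      rw [sum_adj (fun v => f v ^ 2 / (2 * t)), Finset.mul_sum, Finset.mul_sum]
      apply Finset.sum_congr rfl
      intro v _
      field_simp
    rw [h4]
    unfold q bb eF
    rw [← Finset.sum_add_distrib]
    apply Finset.sum_congr rfl
    intro v _
    rw [← Finset.sum_add_distrib]
    apply Finset.sum_congr rfl
    intro w _
    split_ifs
    · ring
    · ring
  have h5 : eF G (fun v w => f v * f w - (f v ^ 2 + f w ^ 2) / (2 * t)) Finset.univ ≤
      eF G (fun v w => f v * f w - (f v ^ 2 + f w ^ 2) / (2 * t)) W := by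
    unfold eF
    have key : ∀ v w, v ∉ W ∨ w ∉ W →
        (if G.Adj v w then f v * f w - (f v ^ 2 + f w ^ 2) / (2 * t) else 0) ≤ 0 := by
      intro v w h
      split_ifs
      · have h6 : f v * f w = 0 := by
          rcases h with h | h
          · rw [hf v h]; ring
          · rw [hf w h]; ring
        rw [h6]
        have : 0 ≤ (f v ^ 2 + f w ^ 2) / (2 * t) := by positivity
        linarith
      · exact le_refl _
    rw [← Finset.sum_sdiff (Finset.subset_univ W)]
    have h6 : ∑ v ∈ Finset.univ \ W, ∑ w,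
        (if G.Adj v w then f v * f w - (f v ^ 2 + f w ^ 2) / (2 * t) else 0) ≤ 0 := by
      apply Finset.sum_nonpos
      intro v hv
      apply Finset.sum_nonpos
      intro w _
      exact key v w (Or.inl (Finset.mem_sdiff.1 hv).2)
    have h7 : ∑ v ∈ W, ∑ w,
        (if G.Adj v w then f v * f w - (f v ^ 2 + f w ^ 2) / (2 * t) else 0) ≤
        ∑ v ∈ W, ∑ w ∈ W,
        (if G.Adj v w then f v * f w - (f v ^ 2 + f w ^ 2) / (2 * t) else 0) := by
      apply Finset.sum_le_sum
      intro v _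
      rw [← Finset.sum_sdiff (Finset.subset_univ W)]
      have : ∑ w ∈ Finset.univ \ W,
          (if G.Adj v w then f v * f w - (f v ^ 2 + f w ^ 2) / (2 * t) else 0) ≤ 0 := by
        apply Finset.sum_nonpos
        intro w hw
        exact key v w (Or.inr (Finset.mem_sdiff.1 hw).2)
      linarith
    linarith
  have h6 := deg_le_ND hdeg f
  have h7 := mul_le_mul_of_nonneg_left h6 (show 0 ≤ 1 / t by positivity)
  rw [h3, add_mul]
  linarith

open Classical in
/-- **Lemma 1.** -/
theorem cs_nb {D : V → ℝ} (hdeg : ∀ v, ((nb G v).card : ℝ) ≤ D v) {e θ : ℝ} (he : 0 ≤ e)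
    (he1 : e ≤ 1) (heθ : e ≤ θ ^ 2 / 4) (hθ : 0 < θ)
    (hq : ∀ f : V → ℝ, -e * ND D f ≤ q G f) (W : Finset V)
    (hW : ∀ W' ⊆ W, ∑ v ∈ W', ((nb G v ∩ W').card : ℝ) ≤ θ ^ 4 / 64 * ∑ v ∈ W', D v)
    (f g : V → ℝ) (hf : ∀ v, v ∉ W → f v = 0) (hf0 : ∀ v, 0 ≤ f v) (hg0 : ∀ v, 0 ≤ g v) :
    (bb G f g) ^ 2 ≤ θ ^ 2 * (ND D f * ND D g) := by
  have hD : ∀ v, 0 ≤ D v := fun v => (Nat.cast_nonneg _).trans (hdeg v)
  have h1 := cs_form hq f g
  have h2 : q G f ≤ θ ^ 2 / 4 * ND D f := by
    have h3 := q_degen hdeg (t := 8 / θ ^ 2) (by positivity) W hW f hf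
    refine h3.trans (le_of_eq ?_)
    congr 1
    field_simp
    norm_num
  have h3 := q_le_ND hdeg g
  have h4 : 0 ≤ bb G f g := by
    unfold bb
    apply Finset.sum_nonneg
    intro v _
    apply Finset.sum_nonneg
    intro w _
    split_ifs
    · exact mul_nonneg (hf0 v) (hg0 w)
    · exact le_refl _
  have h5 : 0 ≤ e * ∑ v, D v * (f v * g v) :=
    mul_nonneg he (Finset.sum_nonneg fun v _ => mul_nonneg (hD v) (mul_nonneg (hf0 v) (hg0 v)))
  have h6 : (bb G f g) ^ 2 ≤ (bb G f g + e * ∑ v, D v * (f v * g v)) ^ 2 :=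
    pow_le_pow_left₀ h4 (by linarith) 2
  have h7 := ND_nonneg hD f
  have h8 := ND_nonneg hD g
  have h9 : q G f + e * ND D f ≤ θ ^ 2 / 2 * ND D f := by nlinarith
  have h10 : q G g + e * ND D g ≤ 2 * ND D g := by nlinarith
  have h11 : 0 ≤ q G g + e * ND D g := by
    have := hq g
    linarith
  calc (bb G f g) ^ 2 ≤ (q G f + e * ND D f) * (q G g + e * ND D g) := h6.trans h1
    _ ≤ (θ ^ 2 / 2 * ND D f) * (2 * ND D g) := mul_le_mul h9 h10 h11 (by positivity)
    _ = θ ^ 2 * (ND D f * ND D g) := by ring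

end Pool.Agent.J4.H30.LC
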