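import Pool.Agent.J4.H30.LC.Kernel

set_option autoImplicit false

/-!
# Embedding trees downwards
-/

namespace Pool.Agent.J4.H30.LC

open Finset Pool.Agent.Y394.AT Pool.Agent.R50.MC

variable {V : Type} [Fintype V] {G : SimpleGraph V}

open Classical in
/-- the layers -/
noncomputable def lay (G : SimpleGraph V) (D : V → ℝ) (D0 c1 : ℝ) : ℕ → Finset V
  | 0 => (Finset.univ : Finset V).filter (fun v => D0 < D v)
  | (j + 1) => (lay G D D0 c1 j).filter
      (fun z => c1 * D z ≤ ((dn G D z ∩ lay G D D0 c1 j).card : ℝ))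

theorem lay_succ_subset (D : V → ℝ) (D0 c1 : ℝ) (j : ℕ) :
    lay G D D0 c1 (j + 1) ⊆ lay G D D0 c1 j := by
  classical
  intro z hz
  rw [lay] at hz
  exact (Finset.mem_filter.1 hz).1

theorem lay_big (D : V → ℝ) (D0 c1 : ℝ) (j : ℕ) {z : V} (hz : z ∈ lay G D D0 c1 j) : D0 < D z := by
  classical
  induction j with
  | zero =>
    rw [lay] at hz
    exact (Finset.mem_filter.1 hz).2
  | succ j ih => exact ih (lay_succ_subset D D0 c1 j hz)

open Classical in
theorem lay_deg (D : V → ℝ) (D0 c1 : ℝ) (j : ℕ) {z : V} (hz : z ∈ lay G D D0 c1 (j + 1)) :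
    c1 * D z ≤ ((dn G D z ∩ lay G D D0 c1 j).card : ℝ) := by
  rw [lay] at hz
  convert (Finset.mem_filter.1 hz).2 using 3

open Classical in
theorem count_le (A : Finset V) (f : V → ℝ) (hf : ∀ w, 0 ≤ f w) (t : ℝ) :
    t * ((A.filter (fun w => t ≤ f w)).card : ℝ) ≤ ∑ w ∈ A, f w := by
  calc t * ((A.filter (fun w => t ≤ f w)).card : ℝ) = ∑ w ∈ A.filter (fun w => t ≤ f w), t := by
        rw [Finset.sum_const, nsmul_eq_mul, mul_comm]
    _ ≤ ∑ w ∈ A.filter (fun w => t ≤ f w), f w :=
        Finset.sum_le_sum fun w hw => (Finset.mem_filter.1 hw).2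
    _ ≤ ∑ w ∈ A, f w :=
        Finset.sum_le_sum_of_subset_of_nonneg (Finset.filter_subset _ _) (fun w _ _ => hf w)

open Classical in
theorem card_biUnion_le_real {α : Type} (s : Finset α) (f : α → Finset V) {B : ℝ}
    (hB : ∀ a ∈ s, ((f a).card : ℝ) ≤ B) : ((s.biUnion f).card : ℝ) ≤ s.card * B := by
  calc ((s.biUnion f).card : ℝ) ≤ ((∑ a ∈ s, (f a).card : ℕ) : ℝ) := by
        exact_mod_cast Finset.card_biUnion_le
    _ = ∑ a ∈ s, ((f a).card : ℝ) := by push_cast; rfl
    _ ≤ ∑ a ∈ s, B := Finset.sum_le_sum hB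
    _ = s.card * B := by rw [Finset.sum_const, nsmul_eq_mul]

open Classical in
/-- **Embedding.** -/
theorem embed (m : ℕ) (T : SimpleGraph (Fin (m + 1))) (hT : T.IsTree) {D : V → ℝ}
    (hD : ∀ v, 0 < D v) (hdeg : ∀ v, ((nb G v).card : ℝ) ≤ D v) {θ δ c1 D0 : ℝ}
    (hθ : 0 < θ) (hδ : 0 < δ) (hδ1 : δ ≤ 1) (hθδ : θ ≤ δ ^ (m + 2))
    (hD0 : (m : ℝ) + 1 ≤ δ * D0) (hc : 2 * ((m : ℝ) + 1) ^ 2 * δ < c1) (hnb : NbSmall G D θ)
    (hne : (lay G D D0 c1 m).Nonempty) : Nonempty (T ↪g G) := by
  obtain ⟨Inv, hInv⟩ : ∃ Inv : ℕ → Finset V → Prop, Inv = fun n S => S ⊆ lay G D D0 c1 (m + 1 - n) ∧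
    ∀ a ∈ S, ∀ b ∈ S, a ≠ b → ∀ i, i + n ≤ m → Pf G D i a b < δ ^ (i + 1) := ⟨_, rfl⟩
  obtain ⟨f, hf1, _, hf3⟩ := tree_embed G Inv (m + 1)
    (by
      obtain ⟨y, hy⟩ := hne
      refine ⟨y, ?_⟩
      rw [hInv]
      refine ⟨?_, ?_⟩
      · intro z hz
        rw [Finset.mem_singleton] at hz
        subst hz
        exact hy
      · intro a ha b hb hab
        rw [Finset.mem_singleton] at ha hb
        exact absurd (ha.trans hb.symm) hab)
    (by
      intro n hn1 hn2 S hS hI p hp
      rw [hInv] at hI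
      obtain ⟨hI1, hI2⟩ := hI
      obtain ⟨j, hj⟩ : ∃ j, m = n + j := ⟨m - n, by omega⟩
      have ej1 : m + 1 - n = j + 1 := by omega
      have ej2 : m + 1 - (n + 1) = j := by omega
      rw [ej1] at hI1
      have hpl := hI1 hp
      have hDp := hD p
      have hDbig : D0 < D p := lay_big D D0 c1 _ hpl
      have hcand := lay_deg D D0 c1 j hpl
      have hn0 : (n : ℝ) ≤ m := by exact_mod_cast (show n ≤ m by omega)
      have hm1 : (n : ℝ) ≤ (m : ℝ) + 1 := by linarith
      obtain ⟨B1, hB1⟩ : ∃ B1 : V → Finset V, B1 = fun b => (dn G D p).filter (fun w => G.Adj b w) :=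
        ⟨_, rfl⟩
      obtain ⟨B2, hB2⟩ : ∃ B2 : V × ℕ → Finset V, B2 = fun x =>
        (dn G D p).filter (fun w => δ ^ (x.2 + 1) ≤ Pf G D x.2 w x.1) := ⟨_, rfl⟩
      obtain ⟨B3, hB3⟩ : ∃ B3 : V × ℕ → Finset V, B3 = fun x =>
        (dn G D p).filter (fun w => δ ^ (x.2 + 1) ≤ Pf G D x.2 x.1 w) := ⟨_, rfl⟩
      have hb1 : ∀ b ∈ S.erase p, ((B1 b).card : ℝ) ≤ δ * D p := by
        intro b hb
        rw [Finset.mem_erase] at hb
        have h1 := hI2 p hp b hb.2 (Ne.symm hb.1) 0 (by omega)
        have h2 : Pf G D 0 p b = ((B1 b).card : ℝ) / D p := by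
          unfold Pf
          rw [Function.iterate_one]
          unfold Kop inb
          rw [Finset.sum_boole, hB1]
        rw [h2, div_lt_iff₀ hDp] at h1
        simpa using h1.le
      have hpw : ∀ i, i < j → θ ≤ δ ^ (i + 1) * δ := by
        intro i hi
        refine hθδ.trans ?_
        rw [← pow_succ]
        exact pow_le_pow_of_le_one hδ.le hδ1 (by omega)
      have hb2 : ∀ x ∈ S ×ˢ Finset.range j, ((B2 x).card : ℝ) ≤ δ * D p := by
        rintro ⟨b, i⟩ hx
        rw [Finset.mem_product, Finset.mem_range] at hx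
        have h1 := count_le (dn G D p) (fun w => Pf G D i w b) (fun w => Pf_nonneg hD i w b)
          (δ ^ (i + 1))
        have h2 : ∑ w ∈ dn G D p, Pf G D i w b ≤ δ ^ (i + 1) * (δ * D p) := by
          have h3 := Pf_succ (G := G) D i p b
          have h4 : ∑ w ∈ dn G D p, Pf G D i w b = D p * Pf G D (i + 1) p b := by
            rw [h3]
            field_simp
          rw [h4]
          have h5 : Pf G D (i + 1) p b ≤ δ ^ (i + 1) * δ := by
            by_cases hbp : p = b
            · subst hbp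
              exact (Pf_return hD hdeg hθ hnb i p).trans (hpw i hx.2)
            · have := hI2 p hp b hx.1 hbp (i + 1) (by have := hx.2; simp only at this; omega)
              rw [pow_succ] at this
              exact this.le
          have := mul_le_mul_of_nonneg_left h5 hDp.le
          linarith
        have h3 := h1.trans h2
        rw [hB2]
        exact le_of_mul_le_mul_left h3 (by positivity)
      have hb3 : ∀ x ∈ S ×ˢ Finset.range j, ((B3 x).card : ℝ) ≤ δ * D p := by
        rintro ⟨b, i⟩ hx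
        rw [Finset.mem_product, Finset.mem_range] at hx
        have h1 := count_le (dn G D p) (fun w => Pf G D i b w) (fun w => Pf_nonneg hD i b w)
          (δ ^ (i + 1))
        have h2 := Pf_sum hD hdeg hθ hnb i b p
        have h3 : θ * D p ≤ δ ^ (i + 1) * (δ * D p) := by
          rw [← mul_assoc]
          exact mul_le_mul_of_nonneg_right (hpw i hx.2) hDp.le
        rw [hB3]
        exact le_of_mul_le_mul_left (h1.trans (h2.trans h3)) (by positivity)
      have hex : ∃ y ∈ dn G D p ∩ lay G D D0 c1 j, y ∉ S ∧ y ∉ (S.erase p).biUnion B1 ∧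
          y ∉ (S ×ˢ Finset.range j).biUnion B2 ∧ y ∉ (S ×ˢ Finset.range j).biUnion B3 := by
        by_contra hcon
        push Not at hcon
        have hsub : dn G D p ∩ lay G D D0 c1 j ⊆ S ∪ ((S.erase p).biUnion B1 ∪
            ((S ×ˢ Finset.range j).biUnion B2 ∪ (S ×ˢ Finset.range j).biUnion B3)) := by
          intro y hy
          rw [Finset.mem_union, Finset.mem_union, Finset.mem_union]
          by_cases h1 : y ∈ S
          · exact Or.inl h1
          by_cases h2 : y ∈ (S.erase p).biUnion B1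
          · exact Or.inr (Or.inl h2)
          by_cases h3 : y ∈ (S ×ˢ Finset.range j).biUnion B2
          · exact Or.inr (Or.inr (Or.inl h3))
          exact Or.inr (Or.inr (Or.inr (hcon y hy h1 h2 h3)))
        have h1 := Finset.card_le_card hsub
        have h2 : ((dn G D p ∩ lay G D D0 c1 j).card : ℝ) ≤ S.card + (((S.erase p).biUnion B1).card +
            (((S ×ˢ Finset.range j).biUnion B2).card + ((S ×ˢ Finset.range j).biUnion B3).card)) := by
          have h3 := h1.trans ((Finset.card_union_le _ _).trans (Nat.add_le_add_left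
            ((Finset.card_union_le _ _).trans (Nat.add_le_add_left
              (Finset.card_union_le _ _) _)) _))
          exact_mod_cast h3
        have h3 := card_biUnion_le_real _ _ hb1
        have h4 := card_biUnion_le_real _ _ hb2
        have h5 := card_biUnion_le_real _ _ hb3
        rw [Finset.card_product, hS, Finset.card_range] at h4 h5
        rw [Finset.card_erase_of_mem hp, hS] at h3
        rw [hS] at h2
        have h6 : ((n - 1 : ℕ) : ℝ) ≤ m := by exact_mod_cast (show n - 1 ≤ m by omega)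
        have h7 : ((n * j : ℕ) : ℝ) ≤ (m : ℝ) * m := by
          exact_mod_cast Nat.mul_le_mul (show n ≤ m by omega) (show j ≤ m by omega)
        have h8 : 0 < δ * D p := by positivity
        have h9 : ((n - 1 : ℕ) : ℝ) * (δ * D p) ≤ m * (δ * D p) :=
          mul_le_mul_of_nonneg_right h6 h8.le
        have h10 : ((n * j : ℕ) : ℝ) * (δ * D p) ≤ (m : ℝ) * m * (δ * D p) :=
          mul_le_mul_of_nonneg_right h7 h8.le
        have h11 : (n : ℝ) ≤ δ * D p := by
          have : δ * D0 ≤ δ * D p := mul_le_mul_of_nonneg_left hDbig.le hδ.le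
          linarith
        have h12 : 2 * ((m : ℝ) + 1) ^ 2 * δ * D p < c1 * D p := mul_lt_mul_of_pos_right hc hDp
        have hm0 : (0 : ℝ) ≤ m := Nat.cast_nonneg _
        nlinarith
      obtain ⟨y, hy, hy1, hy2, hy3, hy4⟩ := hex
      rw [Finset.mem_inter] at hy
      have hyd := hy.1
      have hBy1 : ∀ b ∈ S, b ≠ p → ¬ G.Adj b y := by
        intro b hb hbp hadj
        apply hy2
        rw [Finset.mem_biUnion]
        refine ⟨b, Finset.mem_erase.2 ⟨hbp, hb⟩, ?_⟩
        rw [hB1]
        exact Finset.mem_filter.2 ⟨hyd, hadj⟩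
      have hBy2 : ∀ b ∈ S, ∀ i < j, Pf G D i y b < δ ^ (i + 1) := by
        intro b hb i hi
        by_contra hcon
        apply hy3
        rw [Finset.mem_biUnion]
        refine ⟨(b, i), Finset.mem_product.2 ⟨hb, Finset.mem_range.2 hi⟩, ?_⟩
        rw [hB2]
        exact Finset.mem_filter.2 ⟨hyd, not_lt.1 hcon⟩
      have hBy3 : ∀ b ∈ S, ∀ i < j, Pf G D i b y < δ ^ (i + 1) := by
        intro b hb i hi
        by_contra hcon
        apply hy4
        rw [Finset.mem_biUnion]
        refine ⟨(b, i), Finset.mem_product.2 ⟨hb, Finset.mem_range.2 hi⟩, ?_⟩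
        rw [hB3]
        exact Finset.mem_filter.2 ⟨hyd, not_lt.1 hcon⟩
      refine ⟨y, hy1, (mem_dn.1 hyd).1, hBy1, ?_⟩
      rw [hInv]
      simp only
      rw [ej2]
      refine ⟨?_, ?_⟩
      · intro z hz
        rw [Finset.mem_insert] at hz
        rcases hz with rfl | hz
        · exact hy.2
        · exact lay_succ_subset D D0 c1 j (hI1 hz)
      · intro a ha b hb hab i hi
        rw [Finset.mem_insert] at ha hb
        rcases ha with rfl | ha
        · rcases hb with rfl | hb
          · exact absurd rfl hab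
          · exact hBy2 b hb i (by omega)
        · rcases hb with rfl | hb
          · exact hBy3 a ha i (by omega)
          · exact hI2 a ha b hb hab i (by omega))
    m (by omega) (Fin (m + 1)) T hT (by simp)
  exact ⟨{ toFun := f, inj' := hf1, map_rel_iff' := fun {a b} => (hf3 a b).symm }⟩

end Pool.Agent.J4.H30.LC
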