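import Pool.Agent.J4.H30.LC.Base

set_option autoImplicit false

/-!
# The downward walk
-/

namespace Pool.Agent.J4.H30.LC

open Finset Pool.Agent.Y394.AT Pool.Agent.R50.MC

variable {V : Type} [Fintype V] {G : SimpleGraph V}

open Classical in
/-- the neighbours `x` of `z` with `D x ≤ D z` -/
noncomputable def dn (G : SimpleGraph V) (D : V → ℝ) (z : V) : Finset V :=
  (nb G z).filter (fun x => D x ≤ D z)

theorem mem_dn {D : V → ℝ} {z x : V} : x ∈ dn G D z ↔ G.Adj z x ∧ D x ≤ D z := by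
  unfold dn
  rw [Finset.mem_filter, mem_nb]

/-- one step of the downward walk -/
noncomputable def Kop (G : SimpleGraph V) (D : V → ℝ) (h : V → ℝ) (z : V) : ℝ :=
  (∑ x ∈ dn G D z, h x) / D z

open Classical in
/-- indicator of the neighbourhood -/
noncomputable def inb (G : SimpleGraph V) (u : V) : V → ℝ := fun x => if G.Adj u x then 1 else 0

/-- probability that the downward walk from `z` is in the neighbourhood of `u` after `i + 1` steps -/
noncomputable def Pf (G : SimpleGraph V) (D : V → ℝ) (i : ℕ) (z u : V) : ℝ :=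
  (Kop G D)^[i + 1] (inb G u) z

theorem Kop_nonneg {D : V → ℝ} (hD : ∀ v, 0 < D v) {h : V → ℝ} (hh : ∀ v, 0 ≤ h v) (z : V) :
    0 ≤ Kop G D h z :=
  div_nonneg (Finset.sum_nonneg fun x _ => hh x) (hD z).le

theorem iter_nonneg {D : V → ℝ} (hD : ∀ v, 0 < D v) (i : ℕ) : ∀ {h : V → ℝ}, (∀ v, 0 ≤ h v) →
    ∀ z, 0 ≤ (Kop G D)^[i] h z := by
  induction i with
  | zero => intro h hh z; exact hh z
  | succ i ih =>
    intro h hh z
    rw [Function.iterate_succ_apply']
    exact Kop_nonneg hD (ih hh) z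

theorem inb_nonneg (u x : V) : 0 ≤ inb G u x := by
  unfold inb
  split_ifs <;> norm_num

theorem Pf_nonneg {D : V → ℝ} (hD : ∀ v, 0 < D v) (i : ℕ) (z u : V) : 0 ≤ Pf G D i z u :=
  iter_nonneg hD _ (inb_nonneg u) z

theorem Pf_succ (D : V → ℝ) (i : ℕ) (z u : V) :
    Pf G D (i + 1) z u = (∑ w ∈ dn G D z, Pf G D i w u) / D z := by
  unfold Pf
  rw [Function.iterate_succ_apply']
  rfl

theorem iter_sum {D : V → ℝ} (A : Finset V) (h : V → V → ℝ) (i : ℕ) (z : V) :
    (Kop G D)^[i] (fun x => ∑ w ∈ A, h w x) z = ∑ w ∈ A, (Kop G D)^[i] (h w) z := by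
  induction i generalizing z with
  | zero => rfl
  | succ i ih =>
    rw [Function.iterate_succ_apply']
    have : ∀ w ∈ A, (Kop G D)^[i + 1] (h w) z = Kop G D ((Kop G D)^[i] (h w)) z :=
      fun w _ => by rw [Function.iterate_succ_apply']
    rw [Finset.sum_congr rfl this]
    unfold Kop
    rw [← Finset.sum_div, Finset.sum_comm]
    congr 1
    apply Finset.sum_congr rfl
    intro x _
    exact ih x

/-- norm with weights -/
noncomputable def MA (D a h : V → ℝ) : ℝ := ND D (fun x => a x * h x)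

/-- the general contraction: a bound for the bilinear form gives one for the walk -/
theorem MA_Kop {D : V → ℝ} (hD : ∀ v, 0 < D v) {a : V → ℝ} (ha0 : ∀ v, 0 ≤ a v)
    (ha : ∀ v w, D v ≤ D w → a w ≤ a v) {h : V → ℝ} (hh : ∀ v, 0 ≤ h v) {C : ℝ} (hC : 0 ≤ C)
    (hb : ∀ g : V → ℝ, (∀ v, 0 ≤ g v) →
      (bb G (fun x => a x * h x) g) ^ 2 ≤ C * (ND D (fun x => a x * h x) * ND D g)) :
    MA D a (Kop G D h) ≤ C * MA D a h := by
  classical
  have hK := Kop_nonneg (G := G) hD hh
  obtain ⟨X, hX⟩ : ∃ X : ℝ, X = MA D a (Kop G D h) := ⟨_, rfl⟩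
  have hX0 : 0 ≤ X := by
    rw [hX]
    exact ND_nonneg (fun v => (hD v).le) _
  have hM0 : 0 ≤ MA D a h := ND_nonneg (fun v => (hD v).le) _
  have h1 : X ≤ bb G (fun x => a x * h x) (fun x => a x * Kop G D h x) := by
    rw [bb_comm, hX]
    unfold MA ND bb
    apply Finset.sum_le_sum
    intro z _
    have e1 : D z * (a z * Kop G D h z) ^ 2 = ∑ x ∈ dn G D z, (a z * Kop G D h z) * (a z * h x) := by
      rw [← Finset.mul_sum, ← Finset.mul_sum]
      have : D z * Kop G D h z = ∑ x ∈ dn G D z, h x := by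
        unfold Kop
        field_simp [(hD z).ne']
      rw [← this]
      ring
    rw [e1, ← Finset.sum_filter]
    have hsub : dn G D z ⊆ (Finset.univ : Finset V).filter (fun w => G.Adj z w) := by
      intro x hx
      rw [Finset.mem_filter]
      exact ⟨Finset.mem_univ _, (mem_dn.1 hx).1⟩
    refine le_trans ?_ (Finset.sum_le_sum_of_subset_of_nonneg hsub ?_)
    · apply Finset.sum_le_sum
      intro x hx
      apply mul_le_mul_of_nonneg_left _ (mul_nonneg (ha0 z) (hK z))
      exact mul_le_mul_of_nonneg_right (ha x z (mem_dn.1 hx).2) (hh x)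
    · intro x _ _
      exact mul_nonneg (mul_nonneg (ha0 z) (hK z)) (mul_nonneg (ha0 x) (hh x))
  have h2 := hb (fun x => a x * Kop G D h x) (fun v => mul_nonneg (ha0 v) (hK v))
  have h3 : X ^ 2 ≤ C * (MA D a h * X) := by
    refine (pow_le_pow_left₀ hX0 h1 2).trans ?_
    rw [hX]
    exact h2
  rw [← hX]
  rcases hX0.eq_or_lt with h4 | h4
  · rw [← h4]
    positivity
  · have h5 : X * X ≤ (C * MA D a h) * X := by nlinarith
    exact le_of_mul_le_mul_right h5 h4

theorem MA_contr {D : V → ℝ} (hD : ∀ v, 0 < D v) (hdeg : ∀ v, ((nb G v).card : ℝ) ≤ D v)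
    {a : V → ℝ} (ha0 : ∀ v, 0 ≤ a v)
    (ha : ∀ v w, D v ≤ D w → a w ≤ a v) (i : ℕ) {h : V → ℝ} (hh : ∀ v, 0 ≤ h v) :
    MA D a ((Kop G D)^[i] h) ≤ MA D a h := by
  induction i with
  | zero => exact le_refl _
  | succ i ih =>
    rw [Function.iterate_succ_apply']
    refine le_trans ?_ ih
    have h1 := MA_Kop (G := G) hD ha0 ha (iter_nonneg (G := G) hD i hh) (C := 1) (by norm_num)
      (fun g _ => by rw [one_mul]; exact cs_triv hdeg _ g)
    rw [one_mul] at h1
    exact h1

/-- the hypothesis on neighbourhoods -/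
def NbSmall (G : SimpleGraph V) (D : V → ℝ) (θ : ℝ) : Prop :=
  ∀ p : V, ∀ f g : V → ℝ, (∀ v, ¬ G.Adj p v → f v = 0) → (∀ v, 0 ≤ f v) → (∀ v, 0 ≤ g v) →
    (bb G f g) ^ 2 ≤ θ ^ 2 * (ND D f * ND D g)

open Classical in
/-- indicator of a finite set -/
noncomputable def chi (A : Finset V) : V → ℝ := fun x => if x ∈ A then 1 else 0

theorem chi_nonneg (A : Finset V) (x : V) : 0 ≤ chi A x := by
  unfold chi
  split_ifs <;> norm_num

theorem card_dn_le {D : V → ℝ} (hdeg : ∀ v, ((nb G v).card : ℝ) ≤ D v) (p : V) :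
    ((dn G D p).card : ℝ) ≤ D p := by
  refine le_trans ?_ (hdeg p)
  exact_mod_cast Finset.card_le_card (Finset.filter_subset _ _)

/-- **return probabilities are small** -/
theorem Pf_return {D : V → ℝ} (hD : ∀ v, 0 < D v) (hdeg : ∀ v, ((nb G v).card : ℝ) ≤ D v) {θ : ℝ}
    (hθ : 0 < θ) (hnb : NbSmall G D θ) (i : ℕ) (p : V) : Pf G D (i + 1) p p ≤ θ := by
  classical
  -- restriction to small degrees
  have h1 : ∀ j : ℕ, ∀ z, D z ≤ D p →
      (Kop G D)^[j] (inb G p) z = (Kop G D)^[j] (chi (dn G D p)) z := by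
    intro j
    induction j with
    | zero =>
      intro z hz
      simp only [Function.iterate_zero, id_eq]
      unfold inb chi
      by_cases h : G.Adj p z
      · rw [if_pos h, if_pos (mem_dn.2 ⟨h, hz⟩)]
      · rw [if_neg h, if_neg (fun h' => h (mem_dn.1 h').1)]
    | succ j ih =>
      intro z hz
      rw [Function.iterate_succ_apply', Function.iterate_succ_apply']
      unfold Kop
      congr 1
      apply Finset.sum_congr rfl
      intro x hx
      exact ih x ((mem_dn.1 hx).2.trans hz)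
  obtain ⟨a, ha⟩ : ∃ a : V → ℝ, a = fun x => (Real.sqrt (D x))⁻¹ := ⟨_, rfl⟩
  have ha0 : ∀ v, 0 ≤ a v := by
    intro v
    rw [ha]
    positivity
  have ham : ∀ v w, D v ≤ D w → a w ≤ a v := by
    intro v w h
    rw [ha]
    exact inv_anti₀ (Real.sqrt_pos.2 (hD v)) (Real.sqrt_le_sqrt h)
  have ha2 : ∀ v, D v * a v ^ 2 = 1 := by
    intro v
    rw [ha]
    simp only
    rw [inv_pow, Real.sq_sqrt (hD v).le]
    exact mul_inv_cancel₀ (hD v).ne'
  have hMA : ∀ h : V → ℝ, MA D a h = ∑ x, h x ^ 2 := by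
    intro h
    unfold MA ND
    apply Finset.sum_congr rfl
    intro x _
    rw [mul_pow, ← mul_assoc, ha2, one_mul]
  have h2 : MA D a (chi (dn G D p)) ≤ D p := by
    rw [hMA]
    have : ∀ x, chi (dn G D p) x ^ 2 = if x ∈ dn G D p then 1 else 0 := by
      intro x
      unfold chi
      split_ifs <;> norm_num
    rw [Finset.sum_congr rfl (fun x _ => this x), Finset.sum_boole]
    have h3 := card_dn_le hdeg p
    refine le_trans (le_of_eq ?_) h3
    congr 2
    ext x
    simp
  have h3 : MA D a (Kop G D (chi (dn G D p))) ≤ θ ^ 2 * D p := by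
    have h4 := MA_Kop (G := G) hD ha0 ham (chi_nonneg (dn G D p)) (C := θ ^ 2) (by positivity)
      (fun g hg => hnb p _ g (fun v hv => by
        have : chi (dn G D p) v = 0 := by
          unfold chi
          rw [if_neg (fun h => hv (mem_dn.1 h).1)]
        rw [this, mul_zero]) (fun v => mul_nonneg (ha0 v) (chi_nonneg _ v)) hg)
    exact h4.trans (mul_le_mul_of_nonneg_left h2 (by positivity))
  obtain ⟨g, hg⟩ : ∃ g : V → ℝ, g = (Kop G D)^[i + 1] (chi (dn G D p)) := ⟨_, rfl⟩
  have hg0 : ∀ v, 0 ≤ g v := by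
    rw [hg]
    exact iter_nonneg hD _ (chi_nonneg _)
  have h4 : ∑ x, g x ^ 2 ≤ θ ^ 2 * D p := by
    rw [← hMA, hg, Function.iterate_succ_apply]
    exact (MA_contr hD hdeg ha0 ham i (Kop_nonneg hD (chi_nonneg _))).trans h3
  have h5 : Pf G D (i + 1) p p = (∑ w ∈ dn G D p, g w) / D p := by
    unfold Pf
    rw [h1 _ p (le_refl _), Function.iterate_succ_apply', ← hg]
    rfl
  rw [h5, div_le_iff₀ (hD p)]
  have h6 : (∑ w ∈ dn G D p, g w) ^ 2 ≤ (θ * D p) ^ 2 := by
    calc (∑ w ∈ dn G D p, g w) ^ 2 ≤ ((dn G D p).card : ℝ) * ∑ w ∈ dn G D p, g w ^ 2 :=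
          sq_sum_le_card_mul_sum_sq
      _ ≤ D p * (θ ^ 2 * D p) := by
          apply mul_le_mul (card_dn_le hdeg p) _ (Finset.sum_nonneg fun _ _ => sq_nonneg _) (hD p).le
          exact (Finset.sum_le_sum_of_subset_of_nonneg (Finset.subset_univ _)
            (fun _ _ _ => sq_nonneg _)).trans h4
      _ = (θ * D p) ^ 2 := by ring
  exact le_of_sq_le_sq h6 (mul_pos hθ (hD p)).le

/-- **the walk hits few neighbourhoods of down-neighbours** -/
theorem Pf_sum {D : V → ℝ} (hD : ∀ v, 0 < D v) (hdeg : ∀ v, ((nb G v).card : ℝ) ≤ D v) {θ : ℝ}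
    (hθ : 0 < θ) (hnb : NbSmall G D θ) (i : ℕ) (z p : V) :
    ∑ w ∈ dn G D p, Pf G D i z w ≤ θ * D p := by
  classical
  obtain ⟨a, ha⟩ : ∃ a : V → ℝ, a = fun x => (D x)⁻¹ := ⟨_, rfl⟩
  have ha0 : ∀ v, 0 ≤ a v := by
    intro v
    rw [ha]
    exact (inv_pos.2 (hD v)).le
  have ham : ∀ v w, D v ≤ D w → a w ≤ a v := by
    intro v w h
    rw [ha]
    exact inv_anti₀ (hD v) h
  obtain ⟨h, hh⟩ : ∃ h : V → ℝ, h = fun x => ∑ w ∈ dn G D p, inb G w x := ⟨_, rfl⟩
  have hh0 : ∀ v, 0 ≤ h v := by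
    intro v
    rw [hh]
    exact Finset.sum_nonneg fun w _ => inb_nonneg w v
  have h1 : ∑ w ∈ dn G D p, Pf G D i z w = (Kop G D)^[i + 1] h z := by
    unfold Pf
    rw [hh, iter_sum]
  -- norm of `h`
  have h2 : MA D a h = bb G (chi (dn G D p)) (fun x => a x * h x) := by
    rw [bb_comm]
    unfold MA ND bb
    apply Finset.sum_congr rfl
    intro x _
    have e1 : D x * (a x * h x) ^ 2 = (a x * h x) * h x := by
      rw [ha]
      field_simp [(hD x).ne']
    rw [e1, hh, Finset.mul_sum]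
    rw [← Finset.sum_filter]
    have : ∀ w ∈ dn G D p, (a x * ∑ w ∈ dn G D p, inb G w x) * inb G w x =
        if G.Adj x w then (a x * ∑ w ∈ dn G D p, inb G w x) * chi (dn G D p) w else 0 := by
      intro w hw
      unfold inb chi
      by_cases h : G.Adj w x
      · rw [if_pos h, if_pos h.symm, if_pos hw]
      · rw [if_neg h, if_neg (fun h' => h h'.symm), mul_zero]
    rw [Finset.sum_congr rfl this, Finset.sum_filter]
    apply Finset.sum_subset (Finset.subset_univ _)
    intro w _ hw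
    have : chi (dn G D p) w = 0 := by
      unfold chi
      rw [if_neg hw]
    rw [this, mul_zero]
    simp
  have h3 : ND D (chi (dn G D p)) ≤ D p * D p := by
    have h4 : ND D (chi (dn G D p)) = ∑ x ∈ dn G D p, D x := by
      unfold ND
      rw [← Finset.sum_subset (Finset.subset_univ (dn G D p))]
      · apply Finset.sum_congr rfl
        intro x hx
        unfold chi
        rw [if_pos hx]
        ring
      · intro x _ hx
        unfold chi
        rw [if_neg hx]
        ring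
    rw [h4]
    calc ∑ x ∈ dn G D p, D x ≤ ∑ x ∈ dn G D p, D p :=
          Finset.sum_le_sum fun x hx => (mem_dn.1 hx).2
      _ = ((dn G D p).card : ℝ) * D p := by rw [Finset.sum_const, nsmul_eq_mul]
      _ ≤ D p * D p := mul_le_mul_of_nonneg_right (card_dn_le hdeg p) (hD p).le
  have hM0 : 0 ≤ MA D a h := ND_nonneg (fun v => (hD v).le) _
  have h4 : MA D a h ≤ θ ^ 2 * (D p * D p) := by
    have h5 := hnb p (chi (dn G D p)) (fun x => a x * h x) (fun v hv => by
      unfold chi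
      rw [if_neg (fun h => hv (mem_dn.1 h).1)]) (chi_nonneg _)
      (fun v => mul_nonneg (ha0 v) (hh0 v))
    rw [← h2] at h5
    have h6 : MA D a h ^ 2 ≤ θ ^ 2 * ((D p * D p) * MA D a h) := by
      refine h5.trans ?_
      apply mul_le_mul_of_nonneg_left _ (by positivity)
      exact mul_le_mul_of_nonneg_right h3 hM0
    rcases hM0.eq_or_lt with h7 | h7
    · rw [← h7]
      have := hD p
      positivity
    · have h8 : MA D a h * MA D a h ≤ (θ ^ 2 * (D p * D p)) * MA D a h := by nlinarith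
      exact le_of_mul_le_mul_right h8 h7
  obtain ⟨g, hg⟩ : ∃ g : V → ℝ, g = (Kop G D)^[i] h := ⟨_, rfl⟩
  have h5 : MA D a g ≤ θ ^ 2 * (D p * D p) := by
    rw [hg]
    exact (MA_contr hD hdeg ha0 ham i hh0).trans h4
  have h6 : (Kop G D)^[i + 1] h z = (∑ w ∈ dn G D z, g w) / D z := by
    rw [Function.iterate_succ_apply', ← hg]
    rfl
  rw [h1, h6, div_le_iff₀ (hD z)]
  have h7 : (∑ w ∈ dn G D z, g w) ^ 2 ≤ (θ * D p * D z) ^ 2 := by
    have e1 : ∀ w ∈ dn G D z, g w = Real.sqrt (D w) * (Real.sqrt (D w) * (a w * g w)) := by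
      intro w _
      rw [← mul_assoc, Real.mul_self_sqrt (hD w).le, ha]
      field_simp [(hD w).ne']
    have h8 : (∑ w ∈ dn G D z, g w) ^ 2 ≤ (∑ w ∈ dn G D z, Real.sqrt (D w) ^ 2) *
        ∑ w ∈ dn G D z, (Real.sqrt (D w) * (a w * g w)) ^ 2 := by
      rw [Finset.sum_congr rfl e1]
      exact Finset.sum_mul_sq_le_sq_mul_sq _ _ _
    have h9 : ∑ w ∈ dn G D z, Real.sqrt (D w) ^ 2 ≤ D z * D z := by
      calc ∑ w ∈ dn G D z, Real.sqrt (D w) ^ 2 ≤ ∑ w ∈ dn G D z, D z := by
            apply Finset.sum_le_sum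
            intro x hx
            rw [Real.sq_sqrt (hD x).le]
            exact (mem_dn.1 hx).2
        _ = ((dn G D z).card : ℝ) * D z := by rw [Finset.sum_const, nsmul_eq_mul]
        _ ≤ D z * D z := mul_le_mul_of_nonneg_right (card_dn_le hdeg z) (hD z).le
    have h10 : ∑ w ∈ dn G D z, (Real.sqrt (D w) * (a w * g w)) ^ 2 ≤ θ ^ 2 * (D p * D p) := by
      refine le_trans ?_ h5
      unfold MA ND
      have e2 : ∀ w ∈ dn G D z, (Real.sqrt (D w) * (a w * g w)) ^ 2 = D w * (a w * g w) ^ 2 := by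
        intro w _
        rw [mul_pow, Real.sq_sqrt (hD w).le]
      rw [Finset.sum_congr rfl e2]
      exact Finset.sum_le_sum_of_subset_of_nonneg (Finset.subset_univ _)
        (fun w _ _ => mul_nonneg (hD w).le (sq_nonneg _))
    calc (∑ w ∈ dn G D z, g w) ^ 2 ≤ (D z * D z) * (θ ^ 2 * (D p * D p)) := by
          refine h8.trans (mul_le_mul h9 h10 (Finset.sum_nonneg fun _ _ => sq_nonneg _) ?_)
          exact mul_self_nonneg _
      _ = (θ * D p * D z) ^ 2 := by ring
  exact le_of_sq_le_sq h7 (by have := hD p; have := hD z; positivity)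

end Pool.Agent.J4.H30.LC
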