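import Pool.Agent.J4.H30.LC.Grow

set_option autoImplicit false

/-!
# The weighted local theorem
-/

namespace Pool.Agent.J4.H30.LC

open Finset Pool.Agent.Y394.AT Pool.Agent.R50.MC

variable {V : Type} [Fintype V] {G : SimpleGraph V}

open Classical in
theorem bb_dl (u v : V) (h : G.Adj u v) : bb G (dl u) (dl v) = 1 := by
  rw [bb_eq]
  rw [Finset.sum_eq_single u]
  · have h1 : dl u u = 1 := by unfold dl; simp
    rw [h1, one_mul, Finset.sum_eq_single v]
    · unfold dl; simp
    · intro w _ hw
      unfold dl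
      rw [if_neg hw]
    · intro hv
      exact absurd ((mem_nb G u v).2 h) hv
  · intro w _ hw
    have : dl u w = 0 := by unfold dl; rw [if_neg hw]
    rw [this, zero_mul]
  · intro h
    exact absurd (Finset.mem_univ _) h

open Classical in
theorem ND_dl (D : V → ℝ) (u : V) : ND D (dl u) = D u := by
  unfold ND
  rw [Finset.sum_eq_single u]
  · unfold dl; simp
  · intro w _ hw
    unfold dl
    rw [if_neg hw]
    ring
  · intro h
    exact absurd (Finset.mem_univ _) h

/-- edges join vertices of large weight -/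
theorem adj_weight {D : V → ℝ} {e : ℝ} (hq : ∀ f : V → ℝ, -e * ND D f ≤ q G f)
    {u v : V} (huv : G.Adj u v) : 2 ≤ e * (D u + D v) := by
  classical
  have h1 := hq (fun w => dl u w + (-1) * dl v w)
  rw [q_add, ND_add, q_dl, q_dl, bb_dl u v huv, ND_dl, ND_dl] at h1
  have h2 : ∑ w, D w * (dl u w * dl v w) = 0 := by
    apply Finset.sum_eq_zero
    intro w _
    unfold dl
    by_cases h : w = u
    · have : w ≠ v := fun h' => huv.ne (h.symm.trans h')
      rw [if_neg this]
      ring
    · rw [if_neg h]
      ring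
  rw [h2] at h1
  linarith

open Classical in
theorem q_chi (A : Finset V) : q G (chi A) = ∑ v ∈ A, ((nb G v ∩ A).card : ℝ) := by
  unfold q
  rw [bb_eq]
  have h1 : ∀ v, ∑ w ∈ nb G v, chi A w = ((nb G v ∩ A).card : ℝ) := by
    intro v
    unfold chi
    rw [← Finset.sum_filter, Finset.filter_mem_eq_inter, Finset.sum_const, nsmul_eq_mul, mul_one]
  have : ∀ v, chi A v * ∑ w ∈ nb G v, chi A w = if v ∈ A then ((nb G v ∩ A).card : ℝ) else 0 := by
    intro v
    rw [h1]
    unfold chi
    split_ifs
    · rw [one_mul]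
    · rw [zero_mul]
  rw [Finset.sum_congr rfl (fun v _ => this v), ← Finset.sum_filter]
  simp

open Classical in
theorem union_le {D : V → ℝ} (hD : ∀ v, 0 ≤ D v) {e : ℝ} (he : 0 ≤ e)
    (hq : ∀ f : V → ℝ, -e * ND D f ≤ q G f) (A B : Finset V) (hAB : Disjoint A B) :
    q G (chi (A ∪ B)) ≤ 2 * q G (chi A) + 2 * q G (chi B) + e * ∑ v, D v := by
  have h1 : chi (A ∪ B) = fun v => chi A v + 1 * chi B v := by
    funext v
    unfold chi
    by_cases ha : v ∈ A
    · have hb : v ∉ B := Finset.disjoint_left.1 hAB ha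
      simp [ha, hb]
    · by_cases hb : v ∈ B
      · simp [ha, hb]
      · simp [ha, hb]
  have h2 := hq (fun v => chi A v + (-1) * chi B v)
  have h3 : ND D (fun v => chi A v + (-1) * chi B v) ≤ ∑ v, D v := by
    unfold ND
    apply Finset.sum_le_sum
    intro v _
    have h4 : (chi A v + (-1) * chi B v) ^ 2 ≤ 1 := by
      unfold chi
      split_ifs <;> norm_num
    have := mul_le_mul_of_nonneg_left h4 (hD v)
    linarith
  have h5 := mul_le_mul_of_nonneg_left h3 he
  rw [q_add] at h2
  rw [h1, q_add]
  nlinarith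

open Classical in
theorem layer_le {D : V → ℝ} {c1 : ℝ} (U : Finset V)
    (hU : ∀ v ∈ U, ((dn G D v ∩ U).card : ℝ) ≤ c1 * D v) :
    q G (chi U) ≤ 2 * c1 * ∑ v ∈ U, D v := by
  have h1 : ∑ v, ∑ w, (if G.Adj v w ∧ D w ≤ D v then chi U v * chi U w else 0) =
      ∑ v ∈ U, ((dn G D v ∩ U).card : ℝ) := by
    have h2 : ∀ v, ∑ w, (if G.Adj v w ∧ D w ≤ D v then chi U v * chi U w else 0) =
        if v ∈ U then ((dn G D v ∩ U).card : ℝ) else 0 := by
      intro v
      by_cases hv : v ∈ U
      · rw [if_pos hv]
        have h3 : ∀ w, (if G.Adj v w ∧ D w ≤ D v then chi U v * chi U w else 0) =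
            if w ∈ dn G D v ∩ U then (1 : ℝ) else 0 := by
          intro w
          have h4 : chi U v = 1 := by unfold chi; rw [if_pos hv]
          have hmem : w ∈ dn G D v ∩ U ↔ (G.Adj v w ∧ D w ≤ D v) ∧ w ∈ U := by
            rw [Finset.mem_inter, mem_dn]
          rw [h4]
          unfold chi
          by_cases h5 : G.Adj v w ∧ D w ≤ D v
          · by_cases h6 : w ∈ U
            · rw [if_pos h5, if_pos h6, if_pos (hmem.2 ⟨h5, h6⟩), mul_one]
            · rw [if_pos h5, if_neg h6, if_neg (fun h => h6 (hmem.1 h).2), mul_zero]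
          · rw [if_neg h5, if_neg (fun h => h5 (hmem.1 h).1)]
        rw [Finset.sum_congr rfl (fun w _ => h3 w), Finset.sum_boole]
        congr 2
        ext w
        simp
      · rw [if_neg hv]
        apply Finset.sum_eq_zero
        intro w _
        have h4 : chi U v = 0 := by unfold chi; rw [if_neg hv]
        rw [h4]
        simp
    rw [Finset.sum_congr rfl (fun v _ => h2 v), ← Finset.sum_filter]
    simp
  have h2 : ∑ v, ∑ w, (if G.Adj v w ∧ D v ≤ D w then chi U v * chi U w else 0) =
      ∑ v, ∑ w, (if G.Adj v w ∧ D w ≤ D v then chi U v * chi U w else 0) := by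
    rw [Finset.sum_comm]
    apply Finset.sum_congr rfl
    intro v _
    apply Finset.sum_congr rfl
    intro w _
    by_cases h : G.Adj v w ∧ D w ≤ D v
    · rw [if_pos h, if_pos ⟨h.1.symm, h.2⟩]
      ring
    · rw [if_neg h, if_neg (fun h' => h ⟨h'.1.symm, h'.2⟩)]
  have h3 : q G (chi U) ≤ ∑ v, ∑ w, (if G.Adj v w ∧ D w ≤ D v then chi U v * chi U w else 0) +
      ∑ v, ∑ w, (if G.Adj v w ∧ D v ≤ D w then chi U v * chi U w else 0) := by
    rw [← Finset.sum_add_distrib]
    unfold q bb
    apply Finset.sum_le_sum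
    intro v _
    rw [← Finset.sum_add_distrib]
    apply Finset.sum_le_sum
    intro w _
    have h4 : 0 ≤ chi U v * chi U w := mul_nonneg (chi_nonneg _ _) (chi_nonneg _ _)
    by_cases h5 : G.Adj v w
    · rw [if_pos h5]
      rcases le_total (D w) (D v) with h6 | h6
      · rw [if_pos ⟨h5, h6⟩]
        have : 0 ≤ (if G.Adj v w ∧ D v ≤ D w then chi U v * chi U w else 0) := by
          split_ifs
          · exact h4
          · exact le_refl _
        linarith
      · rw [if_pos (show G.Adj v w ∧ D v ≤ D w from ⟨h5, h6⟩)]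
        have : 0 ≤ (if G.Adj v w ∧ D w ≤ D v then chi U v * chi U w else 0) := by
          split_ifs
          · exact h4
          · exact le_refl _
        linarith
    · rw [if_neg h5, if_neg (fun h => h5 h.1), if_neg (fun h => h5 h.1)]
      simp
  rw [h2, h1] at h3
  have h4 : ∑ v ∈ U, ((dn G D v ∩ U).card : ℝ) ≤ c1 * ∑ v ∈ U, D v := by
    rw [Finset.mul_sum]
    exact Finset.sum_le_sum hU
  linarith

open Classical in
/-- if the last layer is empty, then there are few edges -/
theorem few_edges {D : V → ℝ} (hD : ∀ v, 0 ≤ D v) {e c1 D0 : ℝ} (he : 0 ≤ e) (hc1 : 0 ≤ c1)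
    (heD0 : e * D0 < 1)
    (hq : ∀ f : V → ℝ, -e * ND D f ≤ q G f) (j : ℕ) :
    q G (chi (Finset.univ \ lay G D D0 c1 j)) ≤ (2 ^ j - 1) * ((4 * c1 + e) * ∑ v, D v) := by
  induction j with
  | zero =>
    rw [pow_zero, sub_self, zero_mul]
    apply le_of_eq
    unfold q bb
    apply Finset.sum_eq_zero
    intro v _
    apply Finset.sum_eq_zero
    intro w _
    by_cases h : G.Adj v w
    · rw [if_pos h]
      have h1 := adj_weight hq h
      by_cases hv : D v ≤ D0
      · by_cases hw : D w ≤ D0
        · exfalso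
          have : e * (D v + D w) ≤ e * (D0 + D0) := mul_le_mul_of_nonneg_left (by linarith) he
          linarith
        · have : chi (Finset.univ \ lay G D D0 c1 0) w = 0 := by
            unfold chi
            rw [if_neg]
            rw [Finset.mem_sdiff, not_and_not_right]
            intro _
            rw [lay]
            exact Finset.mem_filter.2 ⟨Finset.mem_univ _, not_le.1 hw⟩
          rw [this, mul_zero]
      · have : chi (Finset.univ \ lay G D D0 c1 0) v = 0 := by
          unfold chi
          rw [if_neg]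
          rw [Finset.mem_sdiff, not_and_not_right]
          intro _
          rw [lay]
          exact Finset.mem_filter.2 ⟨Finset.mem_univ _, not_le.1 hv⟩
        rw [this, zero_mul]
    · rw [if_neg h]
  | succ j ih =>
    have h1 : Finset.univ \ lay G D D0 c1 (j + 1) =
        (Finset.univ \ lay G D D0 c1 j) ∪ (lay G D D0 c1 j \ lay G D D0 c1 (j + 1)) := by
      ext v
      simp only [Finset.mem_sdiff, Finset.mem_univ, true_and, Finset.mem_union]
      have := @lay_succ_subset V _ G D D0 c1 j v
      tauto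
    have h2 : Disjoint (Finset.univ \ lay G D D0 c1 j) (lay G D D0 c1 j \ lay G D D0 c1 (j + 1)) := by
      rw [Finset.disjoint_left]
      intro v hv hv'
      exact (Finset.mem_sdiff.1 hv).2 (Finset.mem_sdiff.1 hv').1
    have h3 := union_le hD he hq _ _ h2
    rw [← h1] at h3
    have h4 : q G (chi (lay G D D0 c1 j \ lay G D D0 c1 (j + 1))) ≤ 2 * c1 * ∑ v, D v := by
      have h5 := layer_le (G := G) (D := D) (c1 := c1) (lay G D D0 c1 j \ lay G D D0 c1 (j + 1)) (by
        intro v hv
        rw [Finset.mem_sdiff] at hv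
        have h6 : ¬ (c1 * D v ≤ ((dn G D v ∩ lay G D D0 c1 j).card : ℝ)) := by
          intro h7
          apply hv.2
          rw [lay]
          refine Finset.mem_filter.2 ⟨hv.1, ?_⟩
          convert h7 using 3
        refine le_trans ?_ (not_le.1 h6).le
        exact_mod_cast Finset.card_le_card (Finset.inter_subset_inter (Finset.Subset.refl _)
          Finset.sdiff_subset))
      refine h5.trans ?_
      apply mul_le_mul_of_nonneg_left _ (by positivity)
      exact Finset.sum_le_sum_of_subset_of_nonneg (Finset.subset_univ _) (fun v _ _ => hD v)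
    rw [pow_succ]
    have h5 : 0 ≤ ∑ v, D v := Finset.sum_nonneg fun v _ => hD v
    nlinarith

theorem ND_ext (D : V → ℝ) (U : Finset V) (f : {x // x ∈ U} → ℝ) :
    ND D (ext0 U f) = ND (fun x : {x // x ∈ U} => D x.1) f := by
  unfold ND
  rw [sum_ext U]
  · apply Finset.sum_congr rfl
    intro x _
    rw [ext0_of]
  · intro v hv
    rw [ext0_not U f hv]
    ring

open Classical in
/-- **Weighted local theorem.** -/
theorem local_w (m : ℕ) (T : SimpleGraph (Fin (m + 1))) (hT : T.IsTree) (k : ℕ) :
    ∀ c : ℝ, 0 < c → ∃ ε : ℝ, 0 < ε ∧ ∀ (V : Type) [Fintype V] (G : SimpleGraph V) (D : V → ℝ),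
      (∀ v, 0 < D v) → (∀ v, ((nb G v).card : ℝ) ≤ D v) → G.CliqueFree (k + 1) →
      IsEmpty (T ↪g G) → (∀ f : V → ℝ, -ε * ND D f ≤ q G f) →
      ∑ v, ((nb G v).card : ℝ) ≤ c * ∑ v, D v := by
  induction k with
  | zero =>
    intro c _
    refine ⟨1, one_pos, ?_⟩
    intro V _ G D _ _ hfree _ _
    have : IsEmpty V := by
      constructor
      intro v
      exact absurd (show G.IsNClique (0 + 1) {v} by simp [SimpleGraph.isNClique_iff]) (hfree {v})
    simp
  | succ k ih =>
    intro c hc
    obtain ⟨c1, hc1d⟩ : ∃ c1 : ℝ, c1 = c / (8 * 2 ^ m) := ⟨_, rfl⟩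
    have hc1 : 0 < c1 := by rw [hc1d]; positivity
    obtain ⟨δ, hδd⟩ : ∃ δ : ℝ, δ = min 1 (c1 / (4 * ((m : ℝ) + 1) ^ 2)) := ⟨_, rfl⟩
    have hδ : 0 < δ := by rw [hδd]; exact lt_min one_pos (by positivity)
    have hδ1 : δ ≤ 1 := by rw [hδd]; exact min_le_left _ _
    have hδc : 2 * ((m : ℝ) + 1) ^ 2 * δ < c1 := by
      have h1 : δ ≤ c1 / (4 * ((m : ℝ) + 1) ^ 2) := by rw [hδd]; exact min_le_right _ _
      rw [le_div_iff₀ (by positivity)] at h1
      linarith
    obtain ⟨D0, hD0d⟩ : ∃ D0 : ℝ, D0 = ((m : ℝ) + 1) / δ := ⟨_, rfl⟩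
    have hD00 : 0 < D0 := by rw [hD0d]; positivity
    have hD0 : (m : ℝ) + 1 ≤ δ * D0 := by
      rw [hD0d]
      field_simp
      exact le_refl _
    obtain ⟨θ, hθd⟩ : ∃ θ : ℝ, θ = δ ^ (m + 2) := ⟨_, rfl⟩
    have hθ : 0 < θ := by rw [hθd]; positivity
    obtain ⟨ε1, hε1, hIH⟩ := ih (θ ^ 4 / 64) (by positivity)
    obtain ⟨ε, hεd⟩ : ∃ ε : ℝ, ε = min (min ε1 1) (min (θ ^ 2 / 4)
      (min (c / (2 * 2 ^ m)) (1 / (2 * D0)))) := ⟨_, rfl⟩
    have hε : 0 < ε := by
      rw [hεd]
      exact lt_min (lt_min hε1 one_pos) (lt_min (by positivity) (lt_min (by positivity)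
        (by positivity)))
    have hεε1 : ε ≤ ε1 := by rw [hεd]; exact (min_le_left _ _).trans (min_le_left _ _)
    have hε1' : ε ≤ 1 := by rw [hεd]; exact (min_le_left _ _).trans (min_le_right _ _)
    have hεθ : ε ≤ θ ^ 2 / 4 := by rw [hεd]; exact (min_le_right _ _).trans (min_le_left _ _)
    have hεc : ε ≤ c / (2 * 2 ^ m) := by
      rw [hεd]
      exact (min_le_right _ _).trans ((min_le_right _ _).trans (min_le_left _ _))
    have hεD : ε ≤ 1 / (2 * D0) := by
      rw [hεd]
      exact (min_le_right _ _).trans ((min_le_right _ _).trans (min_le_right _ _))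
    refine ⟨ε, hε, ?_⟩
    intro V _ G D hD hdeg hfree hemp hq
    have hD' : ∀ v, 0 ≤ D v := fun v => (hD v).le
    have hloc : ∀ p : V, ∀ W ⊆ nb G p, ∑ v ∈ W, ((nb G v ∩ W).card : ℝ) ≤
        θ ^ 4 / 64 * ∑ v ∈ W, D v := by
      intro z W hWz
      have h3 := hIH {x // x ∈ W} (ind G W) (fun x => D x.1) (fun x => hD x.1)
        (by
          intro v
          rw [nb_ind]
          refine le_trans ?_ (hdeg v.1)
          exact_mod_cast Finset.card_le_card Finset.inter_subset_left)
        (by
          intro s hs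
          have hs' : (s.map ⟨Subtype.val, Subtype.val_injective⟩).card = k + 1 := by
            rw [Finset.card_map]
            exact hs.2
          have hz : z ∉ s.map ⟨Subtype.val, Subtype.val_injective⟩ := by
            rw [Finset.mem_map]
            rintro ⟨y, _, hy⟩
            have h4 := hWz y.2
            rw [mem_nb] at h4
            have h5 : y.1 = z := hy
            rw [h5] at h4
            exact G.irrefl h4
          apply hfree (insert z (s.map ⟨Subtype.val, Subtype.val_injective⟩))
          rw [SimpleGraph.isNClique_iff]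
          constructor
          · rw [Finset.coe_insert, SimpleGraph.isClique_insert]
            constructor
            · intro a ha b hb hab
              rw [Finset.mem_coe, Finset.mem_map] at ha hb
              obtain ⟨a', ha', rfl⟩ := ha
              obtain ⟨b', hb', rfl⟩ := hb
              exact hs.1 ha' hb' (fun h => hab (by rw [h]))
            · intro b hb _
              rw [Finset.mem_coe, Finset.mem_map] at hb
              obtain ⟨b', hb', rfl⟩ := hb
              exact (mem_nb _ _ _).1 (hWz b'.2)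
          · rw [Finset.card_insert_of_notMem hz, hs'])
        ⟨fun g => hemp.false (g.trans (indEmb G _))⟩
        (by
          intro f
          have h4 := hq (ext0 _ f)
          rw [ND_ext, q_ext] at h4
          refine le_trans ?_ h4
          have h5 := ND_nonneg (D := fun x : {x // x ∈ W} => D x.1) (fun x => hD' x.1) f
          nlinarith)
      have h4 : ∑ x ∈ W, ((nb G x ∩ W).card : ℝ) =
          ∑ v : {x // x ∈ W}, ((nb (ind G W) v).card : ℝ) := by
        rw [← Finset.sum_coe_sort W]
        apply Finset.sum_congr rfl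
        intro v _
        rw [nb_ind]
      have h5 : ∑ v ∈ W, D v = ∑ v : {x // x ∈ W}, D v.1 := (Finset.sum_coe_sort W D).symm
      rw [h4, h5]
      exact h3
    have hnb : NbSmall G D θ := by
      intro p f g hf hf0 hg0
      exact cs_nb hdeg hε.le hε1' hεθ hθ hq (nb G p) (hloc p) f g
        (fun v hv => hf v (fun h => hv ((mem_nb _ _ _).2 h))) hf0 hg0
    by_cases hne : (lay G D D0 c1 m).Nonempty
    · exact absurd (embed m T hT hD hdeg hθ hδ hδ1 hθd.le hD0 hδc hnb hne)
        (not_nonempty_iff.2 hemp)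
    · rw [Finset.not_nonempty_iff_eq_empty] at hne
      have heD0 : ε * D0 < 1 := by
        have h1 := mul_le_mul_of_nonneg_right hεD hD00.le
        have h2 : 1 / (2 * D0) * D0 = 1 / 2 := by field_simp
        rw [h2] at h1
        linarith
      have h1 := few_edges hD' hε.le hc1.le heD0 hq m
      rw [hne, Finset.sdiff_empty, q_chi] at h1
      simp only [Finset.inter_univ] at h1
      refine h1.trans ?_
      have h2 : 0 ≤ ∑ v, D v := Finset.sum_nonneg fun v _ => hD' v
      rw [← mul_assoc]
      apply mul_le_mul_of_nonneg_right _ h2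
      have h3 : (2 : ℝ) ^ m * (4 * c1) = c / 2 := by
        rw [hc1d]
        field_simp
        norm_num
      have h4 : (2 : ℝ) ^ m * ε ≤ c / 2 := by
        have := mul_le_mul_of_nonneg_left hεc (show (0 : ℝ) ≤ 2 ^ m by positivity)
        have h5 : (2 : ℝ) ^ m * (c / (2 * 2 ^ m)) = c / 2 := by field_simp
        linarith
      nlinarith

end Pool.Agent.J4.H30.LC
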