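import Pool.Agent.J4.H30.LC.LocalW

set_option autoImplicit false

/-!
# Large cuts in all graphs
-/

namespace Pool.Agent.J4.H30.LC

open Finset Pool.Agent.Y394.AT Pool.Agent.R50.MC

variable {V : Type} [Fintype V] {G : SimpleGraph V}

theorem sum_ND (D : V → ℝ) (L : List (V → ℝ)) :
    (L.map (ND D)).sum = ∑ v, D v * (L.map (fun b => b v ^ 2)).sum := by
  induction L with
  | nil => simp
  | cons b L ih =>
    rw [List.map_cons, List.sum_cons, ih]
    simp only [List.map_cons, List.sum_cons]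
    unfold ND
    rw [← Finset.sum_add_distrib]
    apply Finset.sum_congr rfl
    intro v _
    ring

theorem sq_sum_nonneg (L : List (V → ℝ)) (v : V) : 0 ≤ (L.map (fun b => b v ^ 2)).sum := by
  apply List.sum_nonneg
  intro x hx
  rw [List.mem_map] at hx
  obtain ⟨b, _, rfl⟩ := hx
  positivity

open Classical in
/-- **Weighted greedy construction.** -/
theorem greedy_w {D : V → ℝ} (hD : ∀ v, 0 ≤ D v) {e η : ℝ}
    (hU : ∀ U : Finset V, ∑ v ∈ univ \ U, D v ≤ η * ∑ v, D v →
      ∃ f : V → ℝ, (∀ v, v ∉ U → f v = 0) ∧ (∀ v, f v ≠ 0 → 1 ≤ D v) ∧ (∃ v, f v ≠ 0) ∧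
        q G f ≤ -e * ND D f) (t : ℕ) :
    ∃ L : List (V → ℝ), (∀ v, (L.map (fun b => b v ^ 2)).sum ≤ 1) ∧
      (L.map (q G)).sum ≤ -e * (L.map (ND D)).sum ∧
      (η / 2 * ∑ v, D v ≤ (L.map (ND D)).sum ∨ (t : ℝ) / 2 ≤ (L.map (ND D)).sum) := by
  induction t with
  | zero =>
    refine ⟨[], by simp, by simp, Or.inr (by simp)⟩
  | succ t ih =>
    obtain ⟨L, h1, h2, h3⟩ := ih
    by_cases h4 : η / 2 * ∑ v, D v ≤ (L.map (ND D)).sum
    · exact ⟨L, h1, h2, Or.inl h4⟩
    have h5 : (t : ℝ) / 2 ≤ (L.map (ND D)).sum := h3.resolve_left h4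
    push Not at h4
    have hsum := sum_ND D L
    obtain ⟨U, hUd⟩ : ∃ U : Finset V, U = (univ : Finset V).filter
      (fun v => (L.map (fun b => b v ^ 2)).sum ≤ 1 / 2) := ⟨_, rfl⟩
    have hnn := sq_sum_nonneg L
    have hUc : ∑ v ∈ univ \ U, D v ≤ η * ∑ v, D v := by
      have h6 : (∑ v ∈ univ \ U, D v) * (1 / 2) ≤
          ∑ v ∈ univ \ U, D v * (L.map (fun b => b v ^ 2)).sum := by
        rw [Finset.sum_mul]
        apply Finset.sum_le_sum
        intro v hv
        rw [Finset.mem_sdiff, hUd, Finset.mem_filter] at hv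
        apply mul_le_mul_of_nonneg_left _ (hD v)
        by_contra hcon
        push Not at hcon
        exact hv.2 ⟨Finset.mem_univ _, hcon.le⟩
      have h7 : ∑ v ∈ univ \ U, D v * (L.map (fun b => b v ^ 2)).sum ≤ (L.map (ND D)).sum := by
        rw [hsum]
        exact Finset.sum_le_sum_of_subset_of_nonneg (Finset.subset_univ _)
          (fun v _ _ => mul_nonneg (hD v) (hnn v))
      linarith
    obtain ⟨f, hf1, hf2, ⟨v1, hv1⟩, hf3⟩ := hU U hUc
    obtain ⟨v0, _, hmax⟩ := Finset.exists_max_image (univ : Finset V) (fun v => f v ^ 2)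
      ⟨v1, Finset.mem_univ _⟩
    have hpos : 0 < f v0 ^ 2 := by
      have h6 := hmax v1 (Finset.mem_univ _)
      have h7 : 0 < f v1 ^ 2 := by positivity
      linarith
    have hDv0 : 1 ≤ D v0 := hf2 v0 (fun h => by rw [h] at hpos; simp at hpos)
    obtain ⟨a, ha⟩ : ∃ a : ℝ, a = Real.sqrt (1 / (2 * f v0 ^ 2)) := ⟨_, rfl⟩
    have ha2 : a ^ 2 = 1 / (2 * f v0 ^ 2) := by
      rw [ha, Real.sq_sqrt (by positivity)]
    have hfa : ∀ v, (a * f v) ^ 2 ≤ 1 / 2 := by
      intro v
      rw [mul_pow, ha2]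
      have h6 := hmax v (Finset.mem_univ _)
      rw [div_mul_eq_mul_div, one_mul, div_le_div_iff₀ (by positivity) (by norm_num)]
      linarith
    have hN2 : ND D (fun v => a * f v) = a ^ 2 * ND D f := by
      unfold ND
      rw [Finset.mul_sum]
      apply Finset.sum_congr rfl
      intro v _
      ring
    have hqa : q G (fun v => a * f v) = a ^ 2 * q G f := by
      unfold q
      rw [bb_smul_left, bb_comm, bb_smul_left]
      ring
    refine ⟨(fun v => a * f v) :: L, ?_, ?_, Or.inr ?_⟩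
    · intro v
      rw [List.map_cons, List.sum_cons]
      by_cases hv : v ∈ U
      · have h6 := hv
        rw [hUd, Finset.mem_filter] at h6
        have h7 := hfa v
        linarith [h6.2]
      · have h6 : (a * f v) ^ 2 = 0 := by
          rw [hf1 v hv]
          ring
        simp only
        rw [h6]
        linarith [h1 v]
    · rw [List.map_cons, List.sum_cons, List.map_cons, List.sum_cons, hqa, hN2]
      have h6 := mul_le_mul_of_nonneg_left hf3 (sq_nonneg a)
      linarith
    · rw [List.map_cons, List.sum_cons, hN2]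
      have h6 : 1 / 2 ≤ a ^ 2 * ND D f := by
        have h7 : f v0 ^ 2 ≤ ND D f := by
          have h8 : D v0 * f v0 ^ 2 ≤ ND D f := by
            unfold ND
            exact Finset.single_le_sum (f := fun v => D v * f v ^ 2)
              (fun v _ => mul_nonneg (hD v) (sq_nonneg _)) (Finset.mem_univ v0)
          nlinarith
        have h8 : a ^ 2 * f v0 ^ 2 = 1 / 2 := by
          rw [ha2, div_mul_eq_mul_div, one_mul, div_eq_div_iff (by positivity) (by norm_num)]
          ring
        have h9 := mul_le_mul_of_nonneg_left h7 (sq_nonneg a)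
        linarith
      push_cast
      linarith

open Classical in
/-- deleting a set of small total degree deletes few edges -/
theorem sum_del_w (U : Finset V) :
    ∑ v, ((nb G v).card : ℝ) - 2 * ∑ v ∈ univ \ U, ((nb G v).card : ℝ) ≤
      ∑ v ∈ U, ((nb G v ∩ U).card : ℝ) := by
  rw [← q_chi]
  have h1 : ∑ v, ((nb G v).card : ℝ) = ∑ v, ∑ w, if G.Adj v w then (1 : ℝ) else 0 := by
    rw [sum_adj_left (fun _ => (1 : ℝ))]
    simp
  have h5 : ∑ v, ((nb G v).card : ℝ) ≤ q G (chi U) +
      2 * ∑ v, ((nb G v).card : ℝ) * (if v ∈ U then 0 else 1) := by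
    rw [← sum_adj, h1]
    unfold q bb
    rw [← Finset.sum_add_distrib]
    apply Finset.sum_le_sum
    intro v _
    rw [← Finset.sum_add_distrib]
    apply Finset.sum_le_sum
    intro w _
    unfold chi
    split_ifs <;> norm_num
  have h7 : ∑ v, ((nb G v).card : ℝ) * (if v ∈ U then 0 else 1) =
      ∑ v ∈ univ \ U, ((nb G v).card : ℝ) := by
    have h8 : ∀ v, ((nb G v).card : ℝ) * (if v ∈ U then 0 else 1) =
        if v ∈ univ \ U then ((nb G v).card : ℝ) else 0 := by
      intro v
      by_cases hv : v ∈ U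
      · simp [hv]
      · simp [hv]
    rw [Finset.sum_congr rfl (fun v _ => h8 v), ← Finset.sum_filter]
    congr 1
    ext v
    simp
  rw [h7] at h5
  linarith

/-- **Main theorem, form version.** -/
theorem main_w (m k : ℕ) (T : SimpleGraph (Fin (m + 1))) (hT : T.IsTree) :
    ∃ c : ℝ, 0 < c ∧ ∀ (V : Type) [Fintype V] (G : SimpleGraph V),
      G.CliqueFree (k + 1) → IsEmpty (T ↪g G) →
      ∃ s : V → ℝ, (∀ v, s v = 1 ∨ s v = -1) ∧ q G s ≤ -(c * ∑ v, ((nb G v).card : ℝ)) := by
  classical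
  obtain ⟨ε, hε, hloc⟩ := local_w m T hT k (1 / 2) (by norm_num)
  obtain ⟨η, hηd⟩ : ∃ η : ℝ, η = 1 / 8 := ⟨_, rfl⟩
  have hη : 0 < η := by rw [hηd]; norm_num
  refine ⟨ε ^ 2 * η ^ 2 / 192, by positivity, ?_⟩
  intro V _ G hfree hemp
  obtain ⟨D, hDd⟩ : ∃ D : V → ℝ, D = fun v => ((nb G v).card : ℝ) := ⟨_, rfl⟩
  have hD : ∀ v, 0 ≤ D v := by
    intro v
    rw [hDd]
    exact Nat.cast_nonneg _
  have hDsum : ∑ v, ((nb G v).card : ℝ) = ∑ v, D v := by rw [hDd]
  have hdeg : ∀ v, ((nb G v).card : ℝ) ≤ D v := by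
    intro v
    rw [hDd]
  rw [hDsum]
  have hS0 : 0 ≤ ∑ v, D v := Finset.sum_nonneg fun v _ => hD v
  rcases hS0.eq_or_lt with hS | hS
  · refine ⟨fun _ => 1, fun _ => Or.inl rfl, ?_⟩
    refine (q_le_ND hdeg _).trans ?_
    unfold ND
    simp only [one_pow, mul_one]
    rw [← hS]
    simp
  -- negative directions on all large sets
  have hU : ∀ U : Finset V, ∑ v ∈ univ \ U, D v ≤ η * ∑ v, D v →
      ∃ f : V → ℝ, (∀ v, v ∉ U → f v = 0) ∧ (∀ v, f v ≠ 0 → 1 ≤ D v) ∧ (∃ v, f v ≠ 0) ∧
        q G f ≤ -ε * ND D f := by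
    intro U hUc
    obtain ⟨W, hW⟩ : ∃ W : Finset V, W = U.filter (fun v => 0 < D v) := ⟨_, rfl⟩
    have hmW : ∀ v, v ∈ W → v ∈ U ∧ 0 < D v := by
      intro v hv
      rw [hW] at hv
      exact Finset.mem_filter.1 hv
    have h0 : ∑ v ∈ univ \ W, D v = ∑ v ∈ univ \ U, D v := by
      symm
      apply Finset.sum_subset
      · intro v hv
        rw [Finset.mem_sdiff] at hv ⊢
        refine ⟨hv.1, fun h => hv.2 ?_⟩
        rw [hW] at h
        exact (Finset.mem_filter.1 h).1
      · intro v hv hv'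
        rw [Finset.mem_sdiff] at hv hv'
        have h1 : v ∈ U := by
          by_contra h
          exact hv' ⟨Finset.mem_univ _, h⟩
        have h2 : ¬ 0 < D v := by
          intro h
          apply hv.2
          rw [hW]
          exact Finset.mem_filter.2 ⟨h1, h⟩
        exact le_antisymm (not_lt.1 h2) (hD v)
    have h1 := sum_del_w (G := G) W
    rw [hDsum] at h1
    have h2 : ∑ v ∈ univ \ W, ((nb G v).card : ℝ) = ∑ v ∈ univ \ W, D v := by rw [hDd]
    rw [h2, h0] at h1
    by_contra hcon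
    push Not at hcon
    have h3 := hloc {x // x ∈ W} (ind G W) (fun x => D x.1)
      (fun x => (hmW x.1 x.2).2)
      (by
        intro v
        rw [nb_ind]
        refine le_trans ?_ (hdeg v.1)
        exact_mod_cast Finset.card_le_card Finset.inter_subset_left)
      (hfree.comap ⟨(indEmb G W).toCopy⟩)
      ⟨fun g => hemp.false (g.trans (indEmb G _))⟩
      (by
        intro f
        rw [← ND_ext, ← q_ext]
        by_cases h4 : ∃ v, ext0 W f v ≠ 0
        · refine (hcon (ext0 W f) (fun v hv => ext0_not W f (fun h => hv ?_)) ?_ h4).le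
          · rw [hW] at h
            exact (Finset.mem_filter.1 h).1
          · intro v hv
            have h5 : v ∈ W := by
              by_contra h6
              exact hv (ext0_not W f h6)
            rw [hW] at h5
            have h6 := (Finset.mem_filter.1 h5).2
            have h8 : D v = ((nb G v).card : ℝ) := by rw [hDd]
            rw [h8] at h6 ⊢
            have h7 : 0 < (nb G v).card := by exact_mod_cast h6
            exact_mod_cast h7
        · push Not at h4
          have h5 : ext0 W f = fun _ => 0 := funext h4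
          rw [h5]
          unfold q bb ND
          simp)
    have h4 : ∑ x ∈ W, ((nb G x ∩ W).card : ℝ) =
        ∑ v : {x // x ∈ W}, ((nb (ind G W) v).card : ℝ) := by
      rw [← Finset.sum_coe_sort W]
      apply Finset.sum_congr rfl
      intro v _
      rw [nb_ind]
    have h5 : ∑ v ∈ W, D v = ∑ v : {x // x ∈ W}, D v.1 := (Finset.sum_coe_sort W D).symm
    rw [← h4, ← h5] at h3
    have h6 : ∑ v ∈ W, D v ≤ ∑ v, D v :=
      Finset.sum_le_sum_of_subset_of_nonneg (Finset.subset_univ _) (fun v _ _ => hD v)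
    rw [hηd] at hUc
    linarith
  obtain ⟨t, ht⟩ := exists_nat_gt (2 * ∑ v, D v)
  obtain ⟨L, hL1, hL2, hL3⟩ := greedy_w hD (e := ε) (η := η) hU t
  have hsum := sum_ND D L
  have hL4 : η / 2 * ∑ v, D v ≤ (L.map (ND D)).sum := by
    rcases hL3 with h | h
    · exact h
    · exfalso
      have h1 : (L.map (ND D)).sum ≤ ∑ v, D v := by
        rw [hsum]
        apply Finset.sum_le_sum
        intro v _
        have := mul_le_mul_of_nonneg_left (hL1 v) (hD v)
        linarith
      linarith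
  have hnn := sq_sum_nonneg L
  obtain ⟨M, hMd⟩ : ∃ M : ℝ, M = Real.sqrt (48 / (ε * η)) := ⟨_, rfl⟩
  have hM2 : M ^ 2 = 48 / (ε * η) := by
    rw [hMd, Real.sq_sqrt (by positivity)]
  have hM : 0 < M := by
    rw [hMd]
    exact Real.sqrt_pos.2 (by positivity)
  obtain ⟨g, hg⟩ := signs (G := G) (fun v => 4 * ((nb G v).card : ℝ) / M ^ 2)
    (fun v => by positivity) L (fun _ => 0)
  have hq0 : q G (fun _ => 0) = 0 := by
    unfold q bb
    simp
  have hP : ∑ v, (4 * ((nb G v).card : ℝ) / M ^ 2) * P4 0 ((L.map (fun b => b v ^ 2)).sum) ≤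
      ε * η / 4 * ∑ v, D v := by
    rw [Finset.mul_sum]
    apply Finset.sum_le_sum
    intro v _
    have h2 : P4 0 ((L.map (fun b => b v ^ 2)).sum) ≤ 3 := by
      unfold P4
      have := hL1 v
      nlinarith [hnn v]
    have h3 : 4 * ((nb G v).card : ℝ) / M ^ 2 = ε * η / 12 * D v := by
      rw [hM2, hDd]
      field_simp
      ring
    calc (4 * ((nb G v).card : ℝ) / M ^ 2) * P4 0 ((L.map (fun b => b v ^ 2)).sum) ≤
          (4 * ((nb G v).card : ℝ) / M ^ 2) * 3 :=
          mul_le_mul_of_nonneg_left h2 (by positivity)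
      _ = ε * η / 4 * D v := by rw [h3]; ring
  rw [hq0, zero_add] at hg
  have hc := q_clip (G := G) hM g
  have hqL : (L.map (q G)).sum ≤ -(ε * η / 2 * ∑ v, D v) := by
    refine hL2.trans ?_
    have h1 := mul_le_mul_of_nonneg_left hL4 hε.le
    linarith
  have hqc : q G (fun v => clip M (g v)) ≤ -(ε * η / 4 * ∑ v, D v) := by
    linarith
  -- scale and round
  have hy : ∀ v, |M⁻¹ * clip M (g v)| ≤ 1 := by
    intro v
    rw [abs_mul, abs_of_pos (inv_pos.2 hM), inv_mul_le_iff₀ hM, mul_one]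
    exact clip_abs hM _
  obtain ⟨s, _, hs2, hs3⟩ := round (G := G) univ (fun v => M⁻¹ * clip M (g v)) hy
  refine ⟨s, fun v => hs2 v (Finset.mem_univ v), hs3.trans ?_⟩
  have hqa : q G (fun v => M⁻¹ * clip M (g v)) = (M ^ 2)⁻¹ * q G (fun v => clip M (g v)) := by
    unfold q
    rw [bb_smul_left, bb_comm, bb_smul_left]
    field_simp
  rw [hqa]
  have h1 := mul_le_mul_of_nonneg_left hqc (show 0 ≤ (M ^ 2)⁻¹ by positivity)
  refine h1.trans (le_of_eq ?_)
  rw [hM2]
  field_simp
  ring

end Pool.Agent.J4.H30.LC
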