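import Pool.Agent.J4.H30.LC.MainW

set_option autoImplicit false

/-!
# Divisions into many parts
-/

namespace Pool.Agent.J4.H30.LC

open Finset Pool.Agent.Y394.AT Pool.Agent.R50.MC

/-- the graph of the edges of `G` whose ends have the same colour -/
def mg {V C : Type} (G : SimpleGraph V) (χ : V → C) : SimpleGraph V where
  Adj := fun u v => G.Adj u v ∧ χ u = χ v
  symm := ⟨fun _ _ h => ⟨h.1.symm, h.2.symm⟩⟩
  loopless := ⟨fun _ h => G.irrefl h.1⟩

theorem mg_adj {V C : Type} (G : SimpleGraph V) (χ : V → C) (u v : V) :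
    (mg G χ).Adj u v ↔ G.Adj u v ∧ χ u = χ v := Iff.rfl

theorem mg_le {V C : Type} (G : SimpleGraph V) (χ : V → C) : mg G χ ≤ G := fun _ _ h => h.1

/-- an induced tree in the graph of the monochromatic edges is an induced tree of the graph -/
theorem mg_tree {V C α : Type} (G : SimpleGraph V) (χ : V → C) (T : SimpleGraph α) (hT : T.IsTree)
    (h : IsEmpty (T ↪g G)) : IsEmpty (T ↪g mg G χ) := by
  constructor
  intro f
  have hwalk : ∀ a b : α, T.Walk a b → χ (f a) = χ (f b) := by
    intro a b w
    induction w with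
    | nil => rfl
    | cons hab _ ih =>
      have h1 : (mg G χ).Adj (f _) (f _) := f.map_rel_iff.2 hab
      exact h1.2.trans ih
  have hconst : ∀ a b : α, χ (f a) = χ (f b) := by
    intro a b
    obtain ⟨w⟩ := hT.connected.preconnected a b
    exact hwalk a b w
  apply h.false
  exact { toFun := f
          inj' := f.injective
          map_rel_iff' := by
            intro a b
            constructor
            · intro hab
              exact f.map_rel_iff.1 (show (mg G χ).Adj (f a) (f b) from ⟨hab, hconst a b⟩)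
            · intro hab
              exact (f.map_rel_iff.2 hab : (mg G χ).Adj (f a) (f b)).1 }

/-- **Division into `2 ^ j` parts.** -/
theorem multi (m k : ℕ) (T : SimpleGraph (Fin (m + 1))) (hT : T.IsTree) :
    ∃ c : ℝ, 0 < c ∧ c < 1 ∧ ∀ (V : Type) [Fintype V] (G : SimpleGraph V),
      G.CliqueFree (k + 1) → IsEmpty (T ↪g G) → ∀ j : ℕ, ∃ χ : V → (Fin j → Bool),
        ∑ v, ((nb (mg G χ) v).card : ℝ) ≤ ((1 - c) / 2) ^ j * ∑ v, ((nb G v).card : ℝ) := by
  classical
  obtain ⟨c0, hc0, hmain⟩ := main_w m k T hT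
  obtain ⟨c, hcd⟩ : ∃ c : ℝ, c = min c0 (1 / 2) := ⟨_, rfl⟩
  have hc : 0 < c := by rw [hcd]; exact lt_min hc0 (by norm_num)
  have hc1 : c < 1 := by
    rw [hcd]
    exact lt_of_le_of_lt (min_le_right _ _) (by norm_num)
  have hcc0 : c ≤ c0 := by rw [hcd]; exact min_le_left _ _
  refine ⟨c, hc, hc1, ?_⟩
  intro V _ G hfree hemp j
  induction j with
  | zero =>
    refine ⟨fun _ => Fin.elim0, ?_⟩
    rw [pow_zero, one_mul]
    apply Finset.sum_le_sum
    intro v _
    have : nb (mg G (fun _ : V => (Fin.elim0 : Fin 0 → Bool))) v ⊆ nb G v := by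
      intro w hw
      rw [mem_nb] at hw ⊢
      exact hw.1
    exact_mod_cast Finset.card_le_card this
  | succ j ih =>
    obtain ⟨χ, hχ⟩ := ih
    obtain ⟨s, hs1, hs2⟩ := hmain V (mg G χ) (hfree.anti (mg_le G χ)) (mg_tree G χ T hT hemp)
    refine ⟨fun v => Fin.cons (decide (s v = 1)) (χ v), ?_⟩
    have hS0 : 0 ≤ ∑ v, ((nb (mg G χ) v).card : ℝ) := Finset.sum_nonneg fun v _ => Nat.cast_nonneg _
    have h1 : ∑ v, ((nb (mg G (fun v => (Fin.cons (decide (s v = 1)) (χ v) : Fin (j + 1) → Bool)))
        v).card : ℝ) = (∑ v, ((nb (mg G χ) v).card : ℝ) + q (mg G χ) s) / 2 := by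
      have h2 : ∀ (H : SimpleGraph V), ∑ v, ((nb H v).card : ℝ) =
          ∑ v, ∑ w, if H.Adj v w then (1 : ℝ) else 0 := by
        intro H
        rw [sum_adj_left (fun _ => (1 : ℝ))]
        simp
      rw [h2, h2]
      unfold q bb
      rw [← Finset.sum_add_distrib, Finset.sum_div]
      apply Finset.sum_congr rfl
      intro v _
      rw [← Finset.sum_add_distrib, Finset.sum_div]
      apply Finset.sum_congr rfl
      intro w _
      have h3 : (mg G (fun v => (Fin.cons (decide (s v = 1)) (χ v) : Fin (j + 1) → Bool))).Adj v w ↔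
          (mg G χ).Adj v w ∧ s v = s w := by
        rw [mg_adj, mg_adj]
        constructor
        · rintro ⟨h4, h5⟩
          have h6 := congrFun h5 0
          simp only [Fin.cons_zero] at h6
          have h7 : χ v = χ w := by
            funext i
            have := congrFun h5 i.succ
            simpa using this
          refine ⟨⟨h4, h7⟩, ?_⟩
          have h8 : s v = 1 ↔ s w = 1 := by simpa using h6
          rcases hs1 v with h9 | h9
          · rw [h9, h8.1 h9]
          · rcases hs1 w with h10 | h10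
            · rw [h8.2 h10, h10]
            · rw [h9, h10]
        · rintro ⟨⟨h4, h5⟩, h6⟩
          refine ⟨h4, ?_⟩
          rw [h5, h6]
      by_cases h : (mg G χ).Adj v w
      · rw [if_pos h, if_pos h]
        by_cases h4 : s v = s w
        · rw [if_pos (h3.2 ⟨h, h4⟩), h4]
          rcases hs1 w with h5 | h5 <;> rw [h5] <;> norm_num
        · rw [if_neg (fun h5 => h4 (h3.1 h5).2)]
          rcases hs1 v with h5 | h5 <;> rcases hs1 w with h6 | h6
          · exact absurd (h5.trans h6.symm) h4
          · rw [h5, h6]; norm_num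
          · rw [h5, h6]; norm_num
          · exact absurd (h5.trans h6.symm) h4
      · rw [if_neg h, if_neg h, if_neg (fun h5 => h (h3.1 h5).1)]
        norm_num
    rw [h1, pow_succ]
    have h4 : q (mg G χ) s ≤ -(c * ∑ v, ((nb (mg G χ) v).card : ℝ)) := by
      refine hs2.trans ?_
      have := mul_le_mul_of_nonneg_right hcc0 hS0
      linarith
    have h5 := mul_le_mul_of_nonneg_left hχ (show 0 ≤ (1 - c) / 2 by linarith)
    nlinarith

end Pool.Agent.J4.H30.LC
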